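import Mathlib

/-!
Products of roots of an integral polynomial in large characteristic (helper419, for MP_b3f132_ag).
-/

set_option autoImplicit false
set_option linter.style.haveILetI false
set_option synthInstance.maxHeartbeats 400000

namespace Pool.Agent.U419.UG

open Polynomial

/-- Homomorphisms to algebraically closed fields extend along integral extensions (copied from
`Pool.Agent.H327R2.SC.exists_hom_ext` of the starting library). -/
theorem exists_hom_ext {R S F : Type*} [CommRing R] [CommRing S] [Field F] [IsAlgClosed F]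
    [Algebra R S] [Algebra.IsIntegral R S] (hinj : Function.Injective (algebraMap R S))
    (φ0 : R →+* F) : ∃ φ : S →+* F, φ.comp (algebraMap R S) = φ0 := by
  classical
  let P : Ideal R := RingHom.ker φ0
  haveI : P.IsPrime := RingHom.ker_isPrime φ0
  obtain ⟨Q, -, hQ, hQP⟩ := Ideal.exists_ideal_over_prime_of_isIntegral P (⊥ : Ideal S)
    (by rw [← RingHom.ker_eq_comap_bot, (RingHom.injective_iff_ker_eq_bot _).1 hinj]; exact bot_le)
  haveI : Q.LiesOver P := ⟨hQP.symm⟩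
  letI : Algebra (R ⧸ P) F := (RingHom.kerLift φ0).toAlgebra
  haveI : IsDomain (R ⧸ P) := Ideal.Quotient.isDomain P
  haveI : IsDomain (S ⧸ Q) := Ideal.Quotient.isDomain Q
  haveI : Algebra.IsIntegral (R ⧸ P) (S ⧸ Q) := inferInstance
  haveI : Algebra.IsAlgebraic (R ⧸ P) (S ⧸ Q) := Algebra.IsIntegral.isAlgebraic
  haveI : FaithfulSMul (R ⧸ P) F := by
    rw [faithfulSMul_iff_algebraMap_injective]
    exact RingHom.kerLift_injective φ0
  haveI : FaithfulSMul (R ⧸ P) (S ⧸ Q) := inferInstance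
  let g : (S ⧸ Q) →ₐ[R ⧸ P] F := IsAlgClosed.lift
  refine ⟨(g : (S ⧸ Q) →+* F).comp (Ideal.Quotient.mk Q), ?_⟩
  ext r
  have h1 : Ideal.Quotient.mk Q (algebraMap R S r) = algebraMap (R ⧸ P) (S ⧸ Q)
      (Ideal.Quotient.mk P r) := rfl
  have h2 : g (algebraMap (R ⧸ P) (S ⧸ Q) (Ideal.Quotient.mk P r)) =
      algebraMap (R ⧸ P) F (Ideal.Quotient.mk P r) := g.commutes _
  simp only [RingHom.comp_apply, RingHom.coe_coe]
  rw [h1, h2]
  rfl

/-- the ring of algebraic integers -/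
abbrev BB : Type := integralClosure ℤ ℂ

theorem factor (P : ℤ[X]) (hP : P.Monic) :
    ∃ s : Multiset BB, P.map (algebraMap ℤ BB) = (s.map fun b => X - C b).prod ∧
      ∀ b ∈ s, aeval (b : ℂ) P = 0 := by
  have hPC : (P.map (algebraMap ℤ ℂ)).Monic := hP.map _
  have hr : ∀ z ∈ (P.map (algebraMap ℤ ℂ)).roots, aeval z P = 0 := by
    intro z hz
    rw [mem_roots hPC.ne_zero, IsRoot.def, eval_map_algebraMap] at hz
    exact hz
  have hint : ∀ z ∈ (P.map (algebraMap ℤ ℂ)).roots, z ∈ integralClosure ℤ ℂ := fun z hz =>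
    ⟨P, hP, hr z hz⟩
  let s : Multiset BB := (P.map (algebraMap ℤ ℂ)).roots.pmap (fun z hz => ⟨z, hz⟩) hint
  have hs : s.map (fun b : BB => (b : ℂ)) = (P.map (algebraMap ℤ ℂ)).roots := by
    simp only [s]
    rw [Multiset.map_pmap]
    exact (Multiset.pmap_eq_map _ (fun z : ℂ => z) _ _).trans (Multiset.map_id' _)
  refine ⟨s, ?_, ?_⟩
  · apply Polynomial.map_injective (algebraMap BB ℂ) (Subtype.val_injective)
    rw [Polynomial.map_map, ← IsScalarTower.algebraMap_eq, Polynomial.map_multiset_prod,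
      Multiset.map_map]
    have h1 := (IsAlgClosed.splits (P.map (algebraMap ℤ ℂ))).eq_prod_roots_of_monic hPC
    rw [h1, ← hs, Multiset.map_map]
    congr 1
    apply Multiset.map_congr rfl
    intro b _
    simp
  · intro b hb
    apply hr
    rw [← hs]
    exact Multiset.mem_map_of_mem _ hb

theorem exists_dvd_int (x : BB) (hx : x ≠ 0) : ∃ N : ℤ, N ≠ 0 ∧ x ∣ (N : BB) := by
  have h1 := Ideal.comap_ne_bot_of_integral_mem (R := ℤ) hx (Ideal.mem_span_singleton_self x)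
    (Algebra.IsIntegral.isIntegral x)
  obtain ⟨N, hN, hN0⟩ := Submodule.exists_mem_ne_zero_of_ne_bot h1
  refine ⟨N, hN0, ?_⟩
  rw [Ideal.mem_comap, Ideal.mem_span_singleton] at hN
  simpa using hN

theorem exists_bound (P : ℤ[X]) (hP : P.Monic) (n : ℕ)
    (h : ∀ m, 1 ≤ m → m ≤ n → ∀ β : Fin m → ℂ, (∀ i, aeval (β i) P = 0) → ∏ i, β i ≠ 1) :
    ∃ l₀ : ℕ, ∀ l : ℕ, l₀ ≤ l → l.Prime → ∀ (E : Type) [Field E] [IsAlgClosed E], (l : E) = 0 →
      ∀ m, 1 ≤ m → m ≤ n → ∀ γ : Fin m → E, (∀ i, aeval (γ i) P = 0) → ∏ i, γ i ≠ 1 := by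
  classical
  obtain ⟨s, hs, hsr⟩ := factor P hP
  have key : ∀ x : Σ m : Fin (n + 1), (Fin m → s.toFinset), ∃ N : ℤ, N ≠ 0 ∧
      (1 ≤ (x.1 : ℕ) → (∏ i, ((x.2 i : s.toFinset) : BB)) - 1 ∣ (N : BB)) := by
    rintro ⟨m, β⟩
    by_cases hm : 1 ≤ (m : ℕ)
    · have h0 : (∏ i, ((β i : s.toFinset) : BB)) - 1 ≠ 0 := by
        intro h1
        rw [sub_eq_zero] at h1
        apply h m hm (by omega) (fun i => (((β i : s.toFinset) : BB) : ℂ))
          (fun i => hsr _ (Multiset.mem_toFinset.1 (β i).2))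
        have h2 := congrArg (algebraMap BB ℂ) h1
        rw [map_prod, map_one] at h2
        exact h2
      obtain ⟨N, hN0, hN⟩ := exists_dvd_int _ h0
      exact ⟨N, hN0, fun _ => hN⟩
    · exact ⟨1, one_ne_zero, fun h => absurd h hm⟩
  choose N hN0 hN using key
  refine ⟨(∏ x, N x).natAbs + 1, ?_⟩
  intro l hl hlp E _ _ hlE m hm1 hmn γ hγ hprod
  have hNN0 : (∏ x, N x) ≠ 0 := Finset.prod_ne_zero_iff.2 fun x _ => hN0 x
  have hchar : CharP E l := (CharP.charP_iff_prime_eq_zero hlp).2 hlE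
  obtain ⟨φ, -⟩ := exists_hom_ext (R := ℤ) (S := BB) (F := E)
    (FaithfulSMul.algebraMap_injective ℤ BB) (algebraMap ℤ E)
  have hroot : ∀ i, ∃ b : s.toFinset, φ (b : BB) = γ i := by
    intro i
    have h1 : (P.map (algebraMap ℤ BB)).eval₂ φ (γ i) = 0 := by
      rw [eval₂_map]
      have h2 := hγ i
      rw [aeval_def] at h2
      rw [← h2]
      congr 1
      exact Subsingleton.elim _ _
    rw [hs, eval₂_multiset_prod, Multiset.prod_eq_zero_iff, Multiset.mem_map] at h1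
    obtain ⟨q, hq, hq0⟩ := h1
    rw [Multiset.mem_map] at hq
    obtain ⟨b, hb, rfl⟩ := hq
    rw [eval₂_sub, eval₂_X, eval₂_C, sub_eq_zero] at hq0
    exact ⟨⟨b, Multiset.mem_toFinset.2 hb⟩, hq0.symm⟩
  choose β hβ using hroot
  let x : Σ m : Fin (n + 1), (Fin m → s.toFinset) := ⟨⟨m, by omega⟩, β⟩
  have h2 := hN x hm1
  have h3 : (N x : E) = 0 := by
    obtain ⟨y, hy⟩ := h2
    have h4 := congrArg φ hy
    rw [map_intCast, map_mul, map_sub, map_one, map_prod] at h4
    have h5 : ∏ i, φ ((x.2 i : s.toFinset) : BB) = 1 := by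
      rw [← hprod]
      exact Finset.prod_congr rfl fun i _ => hβ i
    rw [h5, sub_self, zero_mul] at h4
    exact h4
  have h6 : (l : ℤ) ∣ N x := (CharP.intCast_eq_zero_iff E l _).1 h3
  have h7 : (l : ℤ) ∣ ∏ x, N x := h6.trans (Finset.dvd_prod_of_mem _ (Finset.mem_univ x))
  have h8 := Nat.le_of_dvd (Int.natAbs_pos.2 hNN0) (Int.natCast_dvd.1 h7)
  omega

end Pool.Agent.U419.UG
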