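import Pool.Agent.W569.UG.MainC

/-!
Finite image: an irreducible representation with determinant of finite order which has finite image
on a normal subgroup with topologically cyclic quotient (helper419, for MP_80bee4_ag).
-/

set_option autoImplicit false

namespace Pool.Agent.U419.UG

open Matrix IsLocalRing

/-- no invariant subspace over `Λ` -/
def Irred {G : Type} [Group G] {n : ℕ} {A : Type} [CommRing A] (Λ : Type) [Field Λ]
    [Algebra A Λ] (ρ : G →* GL (Fin n) A) : Prop :=
  ∀ W : Submodule Λ (Fin n → Λ),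
    (∀ g, ∀ w ∈ W, Matrix.mulVec ((ρ g : Matrix (Fin n) (Fin n) A).map (algebraMap A Λ)) w ∈ W) →
    W = ⊥ ∨ W = ⊤

/-- `φ` generates the quotient by `N₀` topologically. -/
def Generates {G : Type} [Group G] [TopologicalSpace G] (N₀ : Subgroup G) (φ : G) : Prop :=
  ∀ U : Subgroup G, IsOpen (U : Set G) → ∀ g : G, ∃ j : ℕ, ∃ m ∈ N₀, ∃ u ∈ U, g = φ ^ j * m * u

section

variable {A : Type} [CommRing A] {Λ : Type} [Field Λ] [Algebra A Λ] {n : ℕ} {G : Type} [Group G]

/-- a normal subgroup acting unipotently acts trivially in an irreducible representation -/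
theorem trivial_of_irred (hinj : Function.Injective (algebraMap A Λ)) (N : Subgroup G) [N.Normal]
    (ρ : G →* GL (Fin n) A) (K : ℕ)
    (hnil : ∀ g : Fin K → G, (∀ s, g s ∈ N) →
      (List.ofFn fun s => (ρ (g s) : Matrix (Fin n) (Fin n) A) - 1).prod = 0)
    (hirr : Irred Λ ρ) : ∀ g ∈ N, ρ g = 1 := by
  classical
  let r : Matrix (Fin n) (Fin n) A →+* Matrix (Fin n) (Fin n) Λ := (algebraMap A Λ).mapMatrix
  have hr : Function.Injective r := by
    intro x y hxy
    ext i j
    exact hinj (congrFun (congrFun hxy i) j)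
  -- the invariants
  let W : Submodule Λ (Fin n → Λ) :=
    { carrier := {w | ∀ g ∈ N, r (ρ g : Matrix (Fin n) (Fin n) A) *ᵥ w = w}
      add_mem' := fun {a b} ha hb g hg => by rw [mulVec_add, ha g hg, hb g hg]
      zero_mem' := fun g _ => mulVec_zero _
      smul_mem' := fun c a ha g hg => by rw [mulVec_smul, ha g hg] }
  have hWinv : ∀ g, ∀ w ∈ W,
      Matrix.mulVec ((ρ g : Matrix (Fin n) (Fin n) A).map (algebraMap A Λ)) w ∈ W := by
    intro g w hw h hh
    change r (ρ h : Matrix (Fin n) (Fin n) A) *ᵥ (r (ρ g : Matrix (Fin n) (Fin n) A) *ᵥ w) =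
      r (ρ g : Matrix (Fin n) (Fin n) A) *ᵥ w
    have h1 : h * g = g * (g⁻¹ * h * g) := by group
    have h2 : g⁻¹ * h * g ∈ N := by
      have := (inferInstance : N.Normal).conj_mem h hh g⁻¹
      rwa [inv_inv] at this
    rw [mulVec_mulVec, ← map_mul, ← Units.val_mul, ← map_mul, h1, map_mul, Units.val_mul, map_mul,
      ← mulVec_mulVec, hw _ h2]
  have key : ∀ K : ℕ, (∀ g : Fin K → G, (∀ s, g s ∈ N) →
      (List.ofFn fun s => (ρ (g s) : Matrix (Fin n) (Fin n) A) - 1).prod = 0) →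
      W ≠ ⊥ ∨ Subsingleton (Fin n → Λ) := by
    intro K
    induction K with
    | zero =>
      intro h
      right
      have h1 := h Fin.elim0 (fun s => s.elim0)
      rw [List.ofFn_zero, List.prod_nil] at h1
      have h2 : (1 : Matrix (Fin n) (Fin n) Λ) = 0 := by rw [← map_one r, h1, map_zero]
      refine ⟨fun x y => ?_⟩
      have h3 : ∀ x : Fin n → Λ, x = 0 := fun x => by rw [← one_mulVec x, h2, zero_mulVec]
      rw [h3 x, h3 y]
    | succ K ih =>
      intro h
      by_cases hK : ∀ g : Fin K → G, (∀ s, g s ∈ N) →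
          (List.ofFn fun s => (ρ (g s) : Matrix (Fin n) (Fin n) A) - 1).prod = 0
      · exact ih hK
      · left
        push Not at hK
        obtain ⟨g, hg, hne⟩ := hK
        set P := (List.ofFn fun s => (ρ (g s) : Matrix (Fin n) (Fin n) A) - 1).prod with hP
        have hrP : r P ≠ 0 := fun h0 => hne (hr (h0.trans (map_zero r).symm))
        obtain ⟨v, hv⟩ : ∃ v, r P *ᵥ v ≠ 0 := by
          by_contra hcon
          push Not at hcon
          apply hrP
          ext i j
          have := congrFun (hcon (Pi.single j 1)) i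
          rw [mulVec_single_one] at this
          exact this
        intro hbot
        apply hv
        rw [← Submodule.mem_bot Λ, ← hbot]
        intro x hx
        have h1 := h (Fin.cons x g) (fun s => by
          refine Fin.cases ?_ (fun s => ?_) s
          · exact hx
          · exact hg s)
        rw [List.ofFn_succ, List.prod_cons] at h1
        simp only [Fin.cons_zero, Fin.cons_succ] at h1
        rw [← hP] at h1
        have h2 : r ((ρ x : Matrix (Fin n) (Fin n) A) - 1) *ᵥ (r P *ᵥ v) = 0 := by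
          rw [mulVec_mulVec, ← map_mul, h1, map_zero, zero_mulVec]
        rw [map_sub, map_one, sub_mulVec, one_mulVec, sub_eq_zero] at h2
        exact h2
  intro g hg
  rcases key K hnil with h1 | h1
  · have h2 := (hirr W hWinv).resolve_left h1
    apply Units.ext
    apply hr
    rw [Units.val_one, map_one]
    ext i j
    have h3 : (Pi.single j 1 : Fin n → Λ) ∈ W := by rw [h2]; trivial
    have h4 := congrFun (h3 g hg) i
    rw [mulVec_single_one] at h4
    have h5 := congrFun (one_mulVec (Pi.single j 1 : Fin n → Λ)) i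
    rw [mulVec_single_one] at h5
    exact h4.trans h5.symm
  · apply Units.ext
    apply hr
    ext i j
    exact absurd (congrFun (Subsingleton.elim (Pi.single i 1 : Fin n → Λ) 0) i) (by simp)

end

section

variable {A : Type} [CommRing A] [IsLocalRing A] [IsNoetherianRing A] {n : ℕ}

/-- reduction modulo a power of the maximal ideal -/
noncomputable abbrev Rk (A : Type) [CommRing A] [IsLocalRing A] (n k : ℕ) :
    GL (Fin n) A →* GL (Fin n) (A ⧸ maximalIdeal A ^ k) :=
  Matrix.GeneralLinearGroup.map (Ideal.Quotient.mk (maximalIdeal A ^ k))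

theorem eq_of_Rk {M M' : GL (Fin n) A} (h : ∀ k, Rk A n k M = Rk A n k M') : M = M' := by
  apply Units.ext
  ext i j
  rw [← sub_eq_zero, ← Submodule.mem_bot A,
    ← Ideal.iInf_pow_eq_bot_of_isLocalRing (maximalIdeal A)
      (IsLocalRing.maximalIdeal.isMaximal A).ne_top, Submodule.mem_iInf]
  intro k
  exact Pool.Agent.W569.FM.ME_of_map_eq (h k) i j

omit [IsNoetherianRing A] in
theorem Rk_mono {M M' : GL (Fin n) A} {k k' : ℕ} (hk : k ≤ k') (h : Rk A n k' M = Rk A n k' M') :
    Rk A n k M = Rk A n k M' := by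
  apply Pool.Agent.W569.FM.map_eq_of_ME
  intro i j
  exact Ideal.pow_le_pow_right hk (Pool.Agent.W569.FM.ME_of_map_eq h i j)

variable [TopologicalSpace A] {G : Type} [Group G] [TopologicalSpace G] [IsTopologicalGroup G]

omit [IsNoetherianRing A] in
theorem open_ker (hA : IsAdic (maximalIdeal A)) (ρ : G →* GL (Fin n) A) (hρ : Continuous ρ)
    (k : ℕ) : IsOpen (((Rk A n k).comp ρ).ker : Set G) := by
  apply Subgroup.isOpen_of_mem_nhds _ (g := (1 : G))
  filter_upwards [Pool.Agent.W569.FM.eventually_ME hA ρ hρ k] with g hg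
  exact Pool.Agent.W569.FM.map_eq_one hg

/-- the image is finite -/
theorem finite_image {Λ : Type} [Field Λ] [IsAlgClosed Λ] [Algebra A Λ]
    (hinj : Function.Injective (algebraMap A Λ)) (hA : IsAdic (maximalIdeal A))
    (ρ : G →* GL (Fin n) A) (hρ : Continuous ρ) (N₀ : Subgroup G) [hN : N₀.Normal]
    (hfin : (ρ '' (N₀ : Set G)).Finite) (φ : G) (hφ : Generates N₀ φ) (hirr : Irred Λ ρ)
    (D : ℕ) (hD : 0 < D) (hdet : ∀ g, (ρ g : Matrix (Fin n) (Fin n) A).det ^ D = 1) :
    (Set.range ρ).Finite := by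
  classical
  rcases Nat.eq_zero_or_pos n with hn | hn
  · subst hn
    have : Subsingleton (GL (Fin 0) A) := ⟨fun x y => Units.ext (Subsingleton.elim _ _)⟩
    exact Set.toFinite _
  -- a power of `ρ φ` commutes with the image of `N₀`
  obtain ⟨m₁, hm₁, hcomm⟩ : ∃ m₁ : ℕ, 0 < m₁ ∧ ∀ g ∈ N₀, ρ φ ^ m₁ * ρ g = ρ g * ρ φ ^ m₁ := by
    have hconj : ∀ γ : G, ∀ x ∈ ρ '' (N₀ : Set G), ρ γ * x * (ρ γ)⁻¹ ∈ ρ '' (N₀ : Set G) := by
      rintro γ _ ⟨g, hg, rfl⟩
      exact ⟨γ * g * γ⁻¹, hN.conj_mem g hg γ, by rw [map_mul, map_mul, map_inv]⟩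
    have : Finite (ρ '' (N₀ : Set G)) := hfin
    let c : Equiv.Perm (ρ '' (N₀ : Set G)) :=
      { toFun := fun x => ⟨ρ φ * x * (ρ φ)⁻¹, hconj φ x x.2⟩
        invFun := fun x => ⟨(ρ φ)⁻¹ * x * ρ φ, by
          have := hconj φ⁻¹ x x.2
          rwa [map_inv, inv_inv] at this⟩
        left_inv := fun x => Subtype.ext (by simp [mul_assoc])
        right_inv := fun x => Subtype.ext (by simp [mul_assoc]) }
    have hc : ∀ (k : ℕ) (x : ρ '' (N₀ : Set G)), ((c ^ k) x : GL (Fin n) A) =
        ρ φ ^ k * x * (ρ φ ^ k)⁻¹ := by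
      intro k
      induction k with
      | zero => intro x; simp
      | succ k ih =>
        intro x
        rw [pow_succ, Equiv.Perm.mul_apply, ih]
        change ρ φ ^ k * (ρ φ * x * (ρ φ)⁻¹) * (ρ φ ^ k)⁻¹ = _
        rw [pow_succ, _root_.mul_inv_rev]
        simp only [mul_assoc]
    obtain ⟨m₁, hm₁, h1⟩ := isOfFinOrder_iff_pow_eq_one.1 (isOfFinOrder_of_finite c)
    refine ⟨m₁, hm₁, fun g hg => ?_⟩
    have h2 := hc m₁ ⟨ρ g, g, hg, rfl⟩
    rw [h1, Equiv.Perm.one_apply] at h2
    have h3 : ρ g = ρ φ ^ m₁ * ρ g * (ρ φ ^ m₁)⁻¹ := h2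
    exact (eq_mul_inv_iff_mul_eq.1 h3).symm
  -- density
  have hdense : ∀ (g : G) (k : ℕ), ∃ (j : ℕ) (m : G), m ∈ N₀ ∧
      Rk A n k (ρ g) = Rk A n k (ρ φ ^ j * ρ m) := by
    intro g k
    obtain ⟨j, m, hm, u, hu, hg⟩ := hφ _ (open_ker hA ρ hρ k) g
    refine ⟨j, m, hm, ?_⟩
    have hu' : Rk A n k (ρ u) = 1 := hu
    rw [hg, map_mul ρ, map_mul (Rk A n k), hu', mul_one, map_mul ρ, map_pow]
  -- it is central
  have hcen : ∀ g, ρ φ ^ m₁ * ρ g = ρ g * ρ φ ^ m₁ := by
    intro g
    apply eq_of_Rk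
    intro k
    obtain ⟨j, m, hm, hg⟩ := hdense g k
    rw [map_mul, map_mul, hg, ← map_mul, ← map_mul]
    congr 1
    rw [← mul_assoc, ← pow_add, add_comm, pow_add, mul_assoc, hcomm m hm, mul_assoc]
  -- so it is a scalar
  let r : Matrix (Fin n) (Fin n) A →+* Matrix (Fin n) (Fin n) Λ := (algebraMap A Λ).mapMatrix
  have hr : Function.Injective r := by
    intro x y hxy
    ext i j
    exact hinj (congrFun (congrFun hxy i) j)
  obtain ⟨μ, hμ⟩ : ∃ μ : Λ, r ((ρ φ ^ m₁ : GL (Fin n) A) : Matrix (Fin n) (Fin n) A) =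
      μ • (1 : Matrix (Fin n) (Fin n) Λ) := by
    have : Nonempty (Fin n) := ⟨⟨0, hn⟩⟩
    set T := r ((ρ φ ^ m₁ : GL (Fin n) A) : Matrix (Fin n) (Fin n) A) with hT
    obtain ⟨μ, hμ⟩ := Module.End.exists_eigenvalue (K := Λ) (V := Fin n → Λ) (Matrix.toLin' T)
    obtain ⟨v, hv⟩ := hμ.exists_hasEigenvector
    have hv1 : T *ᵥ v = μ • v := hv.apply_eq_smul
    have hv0 : v ≠ 0 := hv.2
    let W : Submodule Λ (Fin n → Λ) :=
      { carrier := {w | T *ᵥ w = μ • w}
        add_mem' := fun {a b} ha hb => by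
          change T *ᵥ (a + b) = μ • (a + b)
          rw [mulVec_add, ha, hb, smul_add]
        zero_mem' := by
          change T *ᵥ 0 = μ • 0
          rw [mulVec_zero, smul_zero]
        smul_mem' := fun c a ha => by
          change T *ᵥ (c • a) = μ • (c • a)
          rw [mulVec_smul, ha, smul_comm] }
    have hW : ∀ g, ∀ w ∈ W,
        Matrix.mulVec ((ρ g : Matrix (Fin n) (Fin n) A).map (algebraMap A Λ)) w ∈ W := by
      intro g w hw
      change T *ᵥ (r (ρ g : Matrix (Fin n) (Fin n) A) *ᵥ w) =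
        μ • (r (ρ g : Matrix (Fin n) (Fin n) A) *ᵥ w)
      have h1 : T * r (ρ g : Matrix (Fin n) (Fin n) A) = r (ρ g : Matrix (Fin n) (Fin n) A) * T := by
        rw [hT, ← map_mul, ← map_mul, ← Units.val_mul, ← Units.val_mul, hcen]
      rw [mulVec_mulVec, h1, ← mulVec_mulVec, hw, mulVec_smul]
    have hne : W ≠ ⊥ := by
      intro h
      have : v ∈ W := hv1
      rw [h, Submodule.mem_bot] at this
      exact hv0 this
    have htop := (hirr W hW).resolve_left hne
    refine ⟨μ, ?_⟩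
    ext i j
    have h3 : (Pi.single j 1 : Fin n → Λ) ∈ W := by rw [htop]; trivial
    have h4 : T *ᵥ (Pi.single j 1) = μ • (Pi.single j 1 : Fin n → Λ) := h3
    have h5 := congrFun h4 i
    rw [mulVec_single_one] at h5
    have h6 : T i j = μ • (Pi.single j 1 : Fin n → Λ) i := h5
    rw [Matrix.smul_apply, h6, Pi.single_apply, Matrix.one_apply]
  have hμ1 : μ ^ (n * D) = 1 := by
    have h1 := congrArg Matrix.det hμ
    have h2 : (r ((ρ φ ^ m₁ : GL (Fin n) A) : Matrix (Fin n) (Fin n) A)).det ^ D = 1 := by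
      have h3 := hdet (φ ^ m₁)
      rw [map_pow] at h3
      have h4 := congrArg (algebraMap A Λ) h3
      rw [map_pow, RingHom.map_det, map_one] at h4
      exact h4
    rw [h1, Matrix.det_smul, Matrix.det_one, mul_one, Fintype.card_fin, ← pow_mul] at h2
    exact h2
  have hT : ρ φ ^ (m₁ * (n * D)) = 1 := by
    apply Units.ext
    apply hr
    rw [pow_mul, Units.val_pow_eq_pow_val, map_pow, hμ, smul_pow, one_pow, hμ1, one_smul,
      Units.val_one, map_one]
  have hTpos : 0 < m₁ * (n * D) := by positivity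
  -- conclusion
  let F : Set (GL (Fin n) A) :=
    Set.image2 (fun (j : ℕ) x => ρ φ ^ j * x) (Set.Iio (m₁ * (n * D))) (ρ '' (N₀ : Set G))
  have hF : F.Finite := Set.Finite.image2 _ (Set.finite_Iio _) hfin
  refine hF.subset ?_
  rintro _ ⟨g, rfl⟩
  by_contra hg
  have hk : ∀ f : F, ∃ k, Rk A n k (ρ g) ≠ Rk A n k f := by
    intro f
    by_contra hcon
    push Not at hcon
    apply hg
    rw [eq_of_Rk hcon]
    exact f.2
  choose k hk using hk
  have : Finite F := hF
  have : Fintype F := Fintype.ofFinite F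
  obtain ⟨j, m, hm, hgm⟩ := hdense g (Finset.univ.sup k)
  let f : F := ⟨ρ φ ^ (j % (m₁ * (n * D))) * ρ m, _, Nat.mod_lt _ hTpos, _, ⟨m, hm, rfl⟩, rfl⟩
  apply hk f
  apply Rk_mono (Finset.le_sup (Finset.mem_univ f))
  rw [hgm]
  congr 1
  change ρ φ ^ j * ρ m = ρ φ ^ (j % (m₁ * (n * D))) * ρ m
  rw [pow_eq_pow_mod j hT]

end

end Pool.Agent.U419.UG
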