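import Mathlib

/-!
Nilpotency of an algebra of endomorphisms from the absence of cycles of eigenvalues
(helper419, for MP_b3f132_ag).
-/

set_option autoImplicit false

namespace Pool.Agent.U419.UG

open IsLocalRing

section general

variable {A : Type*} [CommRing A] {E : Type*} [Field E] [Algebra A E] {L : Type*} [AddCommGroup L]
  [Module A L]

/-- the submodule generated by the `x v`, `x ∈ I`, `v ∈ M` -/
def app (I : Submodule A (Module.End A L)) (M : Submodule A L) : Submodule A L :=
  Submodule.map₂ (LinearMap.id : (L →ₗ[A] L) →ₗ[A] (L →ₗ[A] L)) I M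

theorem app_mem {I : Submodule A (Module.End A L)} {M : Submodule A L} {x : Module.End A L}
    {v : L} (hx : x ∈ I) (hv : v ∈ M) : x v ∈ app I M :=
  Submodule.apply_mem_map₂ (LinearMap.id : (L →ₗ[A] L) →ₗ[A] (L →ₗ[A] L)) hx hv

theorem app_le {I : Submodule A (Module.End A L)} {M N : Submodule A L} :
    app I M ≤ N ↔ ∀ x ∈ I, ∀ v ∈ M, x v ∈ N :=
  Submodule.map₂_le

/-- precomposition, as a map linear over the field -/
def pre {M M' : Type*} [AddCommGroup M] [Module A M] [AddCommGroup M'] [Module A M']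
    (τ : M →ₗ[A] M') : (M' →ₗ[A] E) →ₗ[E] (M →ₗ[A] E) where
  toFun ψ := ψ.comp τ
  map_add' _ _ := rfl
  map_smul' _ _ := rfl

theorem finite_span {M W : Type*} [AddCommGroup M] [Module A M] [Module.Finite A M]
    [AddCommGroup W] [Module A W] [Module E W] [IsScalarTower A E W] (φ : M →ₗ[A] W) :
    Module.Finite E (Submodule.span E (Set.range φ)) := by
  obtain ⟨s, hs⟩ := (Module.Finite.fg_top : (⊤ : Submodule A M).FG)
  have h : Submodule.span E (Set.range φ) = Submodule.span E (φ '' (s : Set M)) := by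
    apply le_antisymm
    · rw [Submodule.span_le]
      rintro _ ⟨v, rfl⟩
      have hv : v ∈ Submodule.span A (s : Set M) := by rw [hs]; trivial
      induction hv using Submodule.span_induction with
      | mem x hx => exact Submodule.subset_span ⟨x, hx, rfl⟩
      | zero => simp
      | add x y _ _ hx hy => rw [map_add]; exact Submodule.add_mem _ hx hy
      | smul a x _ hx =>
        rw [map_smul, ← algebraMap_smul E a (φ x)]
        exact Submodule.smul_mem _ _ hx
    · exact Submodule.span_mono (Set.image_subset_range _ _)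
  rw [h]
  exact Module.Finite.span_of_finite E (s.finite_toSet.image _)

/-- an eigenvector and an eigenfunctional with the same eigenvalue -/
theorem exists_eig_both {V : Type*} [AddCommGroup V] [Module E V] [IsAlgClosed E]
    [Module.Finite E V] [Nontrivial V] (T : V →ₗ[E] V) :
    ∃ (c : E) (ψ : V) (lam : V →ₗ[E] E), ψ ≠ 0 ∧ T ψ = c • ψ ∧ lam ≠ 0 ∧
      ∀ v, lam (T v) = c * lam v := by
  obtain ⟨c, hc⟩ := Module.End.exists_eigenvalue (K := E) (V := V) T
  obtain ⟨ψ, hψ⟩ := hc.exists_hasEigenvector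
  have hψ1 : T ψ = c • ψ := hψ.apply_eq_smul
  have hψ0 : ψ ≠ 0 := hψ.2
  have hlt : LinearMap.range (T - c • (LinearMap.id : V →ₗ[E] V)) < ⊤ := by
    rw [lt_top_iff_ne_top]
    intro htop
    have hsur : Function.Surjective (T - c • (LinearMap.id : V →ₗ[E] V)) :=
      LinearMap.range_eq_top.mp htop
    have hinj := LinearMap.injective_iff_surjective.mpr hsur
    apply hψ0
    apply hinj
    rw [map_zero, LinearMap.sub_apply, hψ1]
    simp
  obtain ⟨lam, hlam0, hlam⟩ := Submodule.exists_le_ker_of_lt_top _ hlt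
  refine ⟨c, ψ, lam, hψ0, hψ1, hlam0, ?_⟩
  intro v
  have h1 : (T - c • (LinearMap.id : V →ₗ[E] V)) v ∈ LinearMap.ker lam := hlam ⟨v, rfl⟩
  rw [LinearMap.mem_ker, LinearMap.sub_apply, map_sub, sub_eq_zero] at h1
  rw [h1]
  simp

/-- `c` is an eigenvalue of the conjugation by `S` on the `E`-valued functionals on `I / I ^ 2` -/
def IsEig (I : Submodule A (Module.End A L)) (S : L ≃ₗ[A] L) (c : E) : Prop :=
  ∃ ψ : I →ₗ[A] E, ψ ≠ 0 ∧ (∀ x : I, (x : Module.End A L) ∈ I * I → ψ x = 0) ∧
    ∀ x y : I, (y : Module.End A L) = (S : L →ₗ[A] L) ∘ₗ (x : Module.End A L) ∘ₗ (S.symm : L →ₗ[A] L) →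
      ψ y = c * ψ x

/-- `α` is an eigenvalue of `S` on the functionals on `M / I M` -/
def IsEigM (I : Submodule A (Module.End A L)) (S : L ≃ₗ[A] L) (M : Submodule A L) (α : E) : Prop :=
  ∃ f : M →ₗ[A] E, f ≠ 0 ∧ (∀ v : M, (v : L) ∈ app I M → f v = 0) ∧
    ∀ v w : M, (w : L) = S v → f w = α * f v

theorem step [IsAlgClosed E] [IsNoetherianRing A] [Module.Finite A L]
    (I : Submodule A (Module.End A L)) (S : L ≃ₗ[A] L)
    (hS : ∀ x ∈ I, ((S : L →ₗ[A] L) ∘ₗ x ∘ₗ (S.symm : L →ₗ[A] L) : Module.End A L) ∈ I)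
    (hS' : ∀ x ∈ I, ((S.symm : L →ₗ[A] L) ∘ₗ x ∘ₗ (S : L →ₗ[A] L) : Module.End A L) ∈ I)
    (M : Submodule A L) (hM' : ∀ v ∈ M, S.symm v ∈ M)
    (α : E) (h : IsEigM I S (app I M) α) :
    ∃ (c α' : E), IsEig I S c ∧ IsEigM I S M α' ∧ α = c * α' := by
  obtain ⟨f, hf0, hf1, hf2⟩ := h
  -- the functionals `φ v : x ↦ f (x v)`
  let φ : M →ₗ[A] (I →ₗ[A] E) := LinearMap.mk₂ A
    (fun v x => f ⟨(x : Module.End A L) v, app_mem x.2 v.2⟩)
    (fun v v' x => by
      rw [← map_add]; congr 1; ext; simp)
    (fun a v x => by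
      rw [← map_smul]; congr 1; ext; simp)
    (fun v x x' => by
      rw [← map_add]; congr 1)
    (fun a v x => by
      rw [← map_smul]; congr 1)
  have hφ : ∀ v x, φ v x = f ⟨(x : Module.End A L) v, app_mem x.2 v.2⟩ := fun v x => rfl
  -- conjugation on `I`
  let τ : I →ₗ[A] I :=
    { toFun := fun x => ⟨(S : L →ₗ[A] L) ∘ₗ (x : Module.End A L) ∘ₗ (S.symm : L →ₗ[A] L), hS x x.2⟩
      map_add' := fun x y => by
        ext v; simp
      map_smul' := fun a x => by
        ext v; simp }
  have hτ : ∀ x : I, ((τ x : I) : Module.End A L) =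
    (S : L →ₗ[A] L) ∘ₗ (x : Module.End A L) ∘ₗ (S.symm : L →ₗ[A] L) := fun x => rfl
  -- key relation
  have key : ∀ v w : M, (w : L) = S v → ∀ x : I, φ w (τ x) = α * φ v x := by
    intro v w hw x
    rw [hφ, hφ]
    apply hf2
    change S ((x : Module.End A L) (S.symm w)) = S ((x : Module.End A L) v)
    rw [hw, S.symm_apply_apply]
  let T : (I →ₗ[A] E) →ₗ[E] (I →ₗ[A] E) := pre τ
  have hT : ∀ ψ x, T ψ x = ψ (τ x) := fun ψ x => rfl
  have keyT : ∀ v w : M, (w : L) = S v → T (φ w) = α • φ v := by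
    intro v w hw
    ext x
    rw [hT, key v w hw x]
    rfl
  let H : Submodule E (I →ₗ[A] E) := Submodule.span E (Set.range φ)
  have hfin : Module.Finite E H := finite_span φ
  have hTH : ∀ ψ ∈ H, T ψ ∈ H := by
    intro ψ hψ
    induction hψ using Submodule.span_induction with
    | mem x hx =>
      obtain ⟨w, rfl⟩ := hx
      have hw : ((w : M) : L) = S (⟨S.symm w, hM' _ w.2⟩ : M) := by simp
      rw [keyT ⟨S.symm w, hM' _ w.2⟩ w hw]
      exact Submodule.smul_mem _ _ (Submodule.subset_span ⟨_, rfl⟩)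
    | zero => simp
    | add x y _ _ hx hy => rw [map_add]; exact Submodule.add_mem _ hx hy
    | smul a x _ hx => rw [map_smul]; exact Submodule.smul_mem _ _ hx
  let T0 : H →ₗ[E] H := T.restrict hTH
  have hT0 : ∀ ψ : H, ((T0 ψ : H) : I →ₗ[A] E) = T ψ := fun ψ => rfl
  -- `H` is nontrivial
  have hne : ∃ v : M, φ v ≠ 0 := by
    by_contra hcon
    push Not at hcon
    apply hf0
    have hle : app I M ≤ (LinearMap.ker f).map (app I M).subtype := by
      rw [app_le]
      intro x hx v hv
      refine ⟨⟨x v, app_mem hx hv⟩, ?_, rfl⟩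
      have := hφ ⟨v, hv⟩ ⟨x, hx⟩
      rw [hcon ⟨v, hv⟩] at this
      exact this.symm
    ext ⟨w, hw⟩
    obtain ⟨w', hw', hww⟩ := hle hw
    have : w' = ⟨w, hw⟩ := Subtype.ext hww
    rw [← this]
    exact hw'
  obtain ⟨v₀, hv₀⟩ := hne
  have : Nontrivial H := ⟨⟨⟨φ v₀, Submodule.subset_span ⟨_, rfl⟩⟩, 0, fun h => hv₀ (by
    simpa using congrArg Subtype.val h)⟩⟩
  obtain ⟨c, ψ, lam, hψ0, hψ1, hlam0, hlamT⟩ := exists_eig_both (E := E) (V := H) T0
  -- all functionals of `H` vanish on `I ^ 2`
  have hI2 : ∀ ψ ∈ H, ∀ x : I, (x : Module.End A L) ∈ I * I → ψ x = 0 := by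
    intro ψ hψ x hx
    induction hψ using Submodule.span_induction with
    | mem y hy =>
      obtain ⟨w, rfl⟩ := hy
      rw [hφ]
      apply hf1
      have hmul : I * I ≤ Submodule.comap (LinearMap.applyₗ (w : L)) (app I (app I M)) := by
        rw [Submodule.mul_le]
        intro y hy z hz
        exact app_mem hy (app_mem hz w.2)
      exact hmul hx
    | zero => simp
    | add y z _ _ hy hz => rw [LinearMap.add_apply, hy, hz, add_zero]
    | smul a y _ hy => rw [LinearMap.smul_apply, hy, smul_zero]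
  have hcE : IsEig I S c := by
    refine ⟨ψ, fun h => hψ0 (Subtype.ext h), hI2 ψ ψ.2, ?_⟩
    intro x y hy
    have h1 : y = τ x := Subtype.ext hy
    have h2 : T (ψ : I →ₗ[A] E) = c • (ψ : I →ₗ[A] E) := by
      rw [← hT0, hψ1]
      rfl
    rw [h1, ← hT, h2]
    rfl
  -- `T` is injective on `H`, so `c ≠ 0`
  have hτs : Function.Surjective τ := by
    intro x
    refine ⟨⟨(S.symm : L →ₗ[A] L) ∘ₗ (x : Module.End A L) ∘ₗ (S : L →ₗ[A] L), hS' x x.2⟩, ?_⟩
    apply Subtype.ext
    rw [hτ]
    ext v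
    simp
  have hc0 : c ≠ 0 := by
    rintro rfl
    apply hψ0
    apply Subtype.ext
    ext x
    obtain ⟨y, rfl⟩ := hτs x
    have h2 : T (ψ : I →ₗ[A] E) = 0 := by
      rw [← hT0, hψ1, zero_smul]
      rfl
    have := LinearMap.congr_fun h2 y
    rw [hT] at this
    simpa using this
  let g : M →ₗ[A] E :=
    { toFun := fun v => lam ⟨φ v, Submodule.subset_span ⟨_, rfl⟩⟩
      map_add' := fun v w => by
        rw [← map_add]; congr 1; ext; simp
      map_smul' := fun a v => by
        rw [RingHom.id_apply, ← algebraMap_smul E a (lam _), ← map_smul]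
        congr 1
        ext x
        simp }
  have hg : ∀ v, g v = lam ⟨φ v, Submodule.subset_span ⟨_, rfl⟩⟩ := fun v => rfl
  refine ⟨c, α / c, hcE, ⟨g, ?_, ?_, ?_⟩, by field_simp⟩
  · intro h0
    apply hlam0
    have hle : H ≤ (LinearMap.ker lam).map H.subtype := by
      rw [Submodule.span_le]
      rintro _ ⟨v, rfl⟩
      refine ⟨⟨φ v, Submodule.subset_span ⟨_, rfl⟩⟩, ?_, rfl⟩
      change lam _ = 0
      rw [← hg, h0]
      rfl
    ext ⟨w, hw⟩
    obtain ⟨w', hw', hww⟩ := hle hw
    have : w' = ⟨w, hw⟩ := Subtype.ext hww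
    rw [← this]
    exact hw'
  · intro v hv
    rw [hg]
    have : (⟨φ v, Submodule.subset_span ⟨_, rfl⟩⟩ : H) = 0 := by
      apply Subtype.ext
      ext x
      change φ v x = 0
      rw [hφ]
      exact hf1 _ (app_mem x.2 hv)
    rw [this, map_zero]
  · intro v w hw
    rw [hg, hg]
    have h1 := hlamT ⟨φ w, Submodule.subset_span ⟨_, rfl⟩⟩
    have h2 : T0 ⟨φ w, Submodule.subset_span ⟨_, rfl⟩⟩ = α • ⟨φ v, Submodule.subset_span ⟨_, rfl⟩⟩ := by
      apply Subtype.ext
      exact keyT v w hw
    rw [h2, map_smul, smul_eq_mul] at h1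
    rw [div_mul_eq_mul_div, h1]
    field_simp

theorem finite_hom {M : Type*} [AddCommGroup M] [Module A M] [Module.Finite A M] :
    Module.Finite E (M →ₗ[A] E) := by
  obtain ⟨s, hs⟩ := (Module.Finite.fg_top : (⊤ : Submodule A M).FG)
  let F : (M →ₗ[A] E) →ₗ[E] (s → E) :=
    { toFun := fun f i => f i
      map_add' := fun _ _ => rfl
      map_smul' := fun _ _ => rfl }
  refine Module.Finite.of_injective F ?_
  intro f g hfg
  ext v
  have hv : v ∈ Submodule.span A (s : Set M) := by rw [hs]; trivial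
  induction hv using Submodule.span_induction with
  | mem x hx => exact congrFun hfg ⟨x, hx⟩
  | zero => simp
  | add x y _ _ hx hy => rw [map_add, map_add, hx, hy]
  | smul a x _ hx => rw [map_smul, map_smul, hx]

theorem app_mul_ge (X Y : Submodule A (Module.End A L)) (M : Submodule A L) :
    app X (app Y M) ≤ app (X * Y) M := by
  rw [app_le]
  intro x hx w hw
  have : app Y M ≤ Submodule.comap x (app (X * Y) M) := by
    rw [app_le]
    intro y hy v hv
    change (x * y) v ∈ app (X * Y) M
    exact app_mem (Submodule.mul_mem_mul hx hy) hv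
  exact this hw

theorem app_mono {X Y : Submodule A (Module.End A L)} {M N : Submodule A L} (h : X ≤ Y)
    (h' : M ≤ N) : app X M ≤ app Y N :=
  Submodule.map₂_le_map₂ h h'

theorem le_app_pow (I : Submodule A (Module.End A L)) (M : Submodule A L) (h : M ≤ app I M)
    (K : ℕ) : M ≤ app (I ^ K) M := by
  induction K with
  | zero =>
    intro v hv
    have : (1 : Module.End A L) v ∈ app (I ^ 0) M := app_mem (by
      rw [pow_zero]; exact Submodule.one_le.mp le_rfl) hv
    simpa using this
  | succ K ih =>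
    calc M ≤ app (I ^ K) M := ih
      _ ≤ app (I ^ K) (app I M) := app_mono le_rfl h
      _ ≤ app (I ^ K * I) M := app_mul_ge _ _ _
      _ = app (I ^ (K + 1)) M := by rw [pow_succ]

theorem map_smul_top_mem (J : Ideal A) (y : Module.End A L) {v : L}
    (hv : v ∈ J • (⊤ : Submodule A L)) : y v ∈ J • (⊤ : Submodule A L) := by
  refine Submodule.smul_induction_on hv ?_ ?_
  · intro a ha w _
    rw [map_smul]
    exact Submodule.smul_mem_smul ha trivial
  · intro x z hx hz
    rw [map_add]
    exact Submodule.add_mem _ hx hz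

theorem app_smul_top (J K : Ideal A) :
    app (J • (⊤ : Submodule A (Module.End A L))) (K • (⊤ : Submodule A L)) ≤
      (J * K) • (⊤ : Submodule A L) := by
  rw [app_le]
  intro x hx v hv
  refine Submodule.smul_induction_on hx ?_ ?_
  · intro a ha y _
    rw [LinearMap.smul_apply, mul_smul]
    exact Submodule.smul_mem_smul ha (map_smul_top_mem K y hv)
  · intro y z hy hz
    rw [LinearMap.add_apply]
    exact Submodule.add_mem _ hy hz

theorem eq_bot_of_le_app [IsLocalRing A] [IsNoetherianRing A] [Module.Finite A L]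
    (I : Submodule A (Module.End A L)) (M : Submodule A L) (K : ℕ)
    (hK : I ^ K ≤ maximalIdeal A • (⊤ : Submodule A (Module.End A L)))
    (h : M ≤ app I M ⊔ maximalIdeal A • M) : M = ⊥ := by
  have h1 : M ≤ app I M :=
    Submodule.le_of_le_smul_of_le_jacobson_bot (IsNoetherian.noetherian M)
      (IsLocalRing.maximalIdeal_le_jacobson _) h
  have h2 := le_app_pow I M h1 K
  have h3 : ∀ j : ℕ, M ≤ maximalIdeal A ^ j • (⊤ : Submodule A L) := by
    intro j
    induction j with
    | zero => simp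
    | succ j ih =>
      calc M ≤ app (I ^ K) M := h2
        _ ≤ app (maximalIdeal A • (⊤ : Submodule A (Module.End A L)))
            (maximalIdeal A ^ j • (⊤ : Submodule A L)) := app_mono hK ih
        _ ≤ (maximalIdeal A * maximalIdeal A ^ j) • (⊤ : Submodule A L) := app_smul_top _ _
        _ = maximalIdeal A ^ (j + 1) • (⊤ : Submodule A L) := by rw [pow_succ']
  rw [eq_bot_iff, ← Ideal.iInf_pow_smul_eq_bot_of_isLocalRing (M := L) (maximalIdeal A)
    (IsLocalRing.maximalIdeal.isMaximal A).ne_top]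
  exact le_iInf h3

theorem exists_functional [IsLocalRing A] (hE : ∀ a ∈ maximalIdeal A, algebraMap A E a = 0)
    {M : Type*} [AddCommGroup M] [Module A M] [Module.Finite A M] (N : Submodule A M)
    (hN : N ≠ ⊤) : ∃ f : M →ₗ[A] E, f ≠ 0 ∧ ∀ v ∈ N, f v = 0 := by
  obtain h | ⟨N', hN', hle⟩ := IsCoatomic.eq_top_or_exists_le_coatom N
  · exact absurd h hN
  have hsimple : IsSimpleModule A (M ⧸ N') := isSimpleModule_iff_isCoatom.mpr hN'
  obtain ⟨J, hJ, ⟨e⟩⟩ := isSimpleModule_iff_quot_maximal.mp hsimple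
  have hJm : J = maximalIdeal A := IsLocalRing.eq_maximalIdeal hJ
  let q : (A ⧸ J) →ₗ[A] E := Submodule.liftQ J (Algebra.linearMap A E) (by
    intro a ha
    rw [LinearMap.mem_ker, Algebra.linearMap_apply]
    exact hE a (hJm ▸ ha))
  refine ⟨q.comp (e.toLinearMap.comp N'.mkQ), ?_, ?_⟩
  · intro h0
    obtain ⟨v, hv⟩ := N'.mkQ_surjective (e.symm (Submodule.Quotient.mk 1))
    have := LinearMap.congr_fun h0 v
    rw [LinearMap.comp_apply, LinearMap.comp_apply, hv] at this
    change q (e (e.symm (Submodule.Quotient.mk 1))) = 0 at this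
    rw [e.apply_symm_apply] at this
    exact one_ne_zero ((map_one (algebraMap A E)).symm.trans this)
  · intro v hv
    have : N'.mkQ v = 0 := by
      rw [Submodule.mkQ_apply, Submodule.Quotient.mk_eq_zero]
      exact hle hv
    rw [LinearMap.comp_apply, LinearMap.comp_apply, this, map_zero, map_zero]

theorem start [IsAlgClosed E] [IsLocalRing A] [IsNoetherianRing A] [Module.Finite A L]
    (hE : ∀ a ∈ maximalIdeal A, algebraMap A E a = 0)
    (I : Submodule A (Module.End A L)) (S : L ≃ₗ[A] L)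
    (hS : ∀ x ∈ I, ((S : L →ₗ[A] L) ∘ₗ x ∘ₗ (S.symm : L →ₗ[A] L) : Module.End A L) ∈ I)
    (M : Submodule A L) (hM : ∀ v ∈ M, S v ∈ M) (K : ℕ)
    (hK : I ^ K ≤ maximalIdeal A • (⊤ : Submodule A (Module.End A L))) (hM0 : M ≠ ⊥) :
    ∃ α : E, IsEigM I S M α := by
  have hnot : ¬ M ≤ app I M ⊔ maximalIdeal A • M := fun h => hM0 (eq_bot_of_le_app I M K hK h)
  let N : Submodule A M := Submodule.comap M.subtype (app I M ⊔ maximalIdeal A • M)
  have hN : N ≠ ⊤ := by
    intro h
    apply hnot
    intro v hv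
    have : (⟨v, hv⟩ : M) ∈ N := by rw [h]; trivial
    exact this
  obtain ⟨f, hf0, hf⟩ := exists_functional (E := E) hE N hN
  let SM : M →ₗ[A] M := (S : L →ₗ[A] L).restrict hM
  let T : (M →ₗ[A] E) →ₗ[E] (M →ₗ[A] E) := pre SM
  have hT : ∀ f v, T f v = f (SM v) := fun _ _ => rfl
  let D : Submodule E (M →ₗ[A] E) :=
    { carrier := {f | ∀ v : M, (v : L) ∈ app I M → f v = 0}
      add_mem' := fun {f g} hf hg v hv => by
        rw [LinearMap.add_apply, hf v hv, hg v hv, add_zero]
      zero_mem' := fun v _ => rfl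
      smul_mem' := fun a f hf v hv => by
        rw [LinearMap.smul_apply, hf v hv, smul_zero] }
  have hSapp : ∀ v ∈ app I M, S v ∈ app I M := by
    intro v hv
    have hle : app I M ≤ Submodule.comap (S : L →ₗ[A] L) (app I M) := by
      rw [app_le]
      intro x hx w hw
      have h1 := app_mem (hS x hx) (hM w hw)
      simpa using h1
    exact hle hv
  have hTD : ∀ f ∈ D, T f ∈ D := by
    intro f hf v hv
    rw [hT]
    exact hf _ (hSapp v hv)
  have : Module.Finite E (M →ₗ[A] E) := finite_hom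
  have hfinD : Module.Finite E D := inferInstance
  have hfD : f ∈ D := fun v hv => hf v (Submodule.mem_sup_left hv)
  have : Nontrivial D := ⟨⟨⟨f, hfD⟩, 0, fun h => hf0 (by
    simpa using congrArg Subtype.val h)⟩⟩
  obtain ⟨α, g, -, hg0, hg, -, -⟩ := exists_eig_both (E := E) (V := D) (T.restrict hTD)
  refine ⟨α, g, fun h => hg0 (Subtype.ext h), g.2, ?_⟩
  intro v w hw
  have h1 : T (g : M →ₗ[A] E) = α • (g : M →ₗ[A] E) := congrArg Subtype.val hg
  have h2 : w = SM v := Subtype.ext hw
  rw [h2, ← hT, h1]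
  rfl

theorem root (I : Submodule A (Module.End A L)) (S : L ≃ₗ[A] L)
    (M : Submodule A L) (hM : ∀ v ∈ M, S v ∈ M) (α : E) (h : IsEigM I S M α)
    (p : Polynomial A) (hp : Polynomial.aeval (S : Module.End A L) p = 0) :
    Polynomial.aeval α p = 0 := by
  obtain ⟨f, hf0, -, hf⟩ := h
  let SM : Module.End A M := (S : L →ₗ[A] L).restrict hM
  have h1 : ∀ (k : ℕ) (v : M), f ((SM ^ k) v) = α ^ k * f v := by
    intro k
    induction k with
    | zero => intro v; simp
    | succ k ih =>
      intro v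
      rw [pow_succ, Module.End.mul_apply, ih, hf v (SM v) rfl, pow_succ, mul_assoc]
  have h2 : ∀ (k : ℕ) (v : M), (((SM ^ k) v : M) : L) = ((S : Module.End A L) ^ k) v := by
    intro k
    induction k with
    | zero => intro v; simp
    | succ k ih =>
      intro v
      rw [pow_succ, Module.End.mul_apply, ih, pow_succ, Module.End.mul_apply]
      rfl
  have h3 : ∀ v : M, f (Polynomial.aeval SM p v) = Polynomial.aeval α p * f v := by
    intro v
    clear hp
    induction p using Polynomial.induction_on' with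
    | add p q hp hq =>
      rw [map_add, LinearMap.add_apply, map_add, hp, hq, map_add, add_mul]
    | monomial k a =>
      rw [Polynomial.aeval_monomial, Polynomial.aeval_monomial, Module.End.mul_apply,
        Module.algebraMap_end_apply, map_smul, h1, Algebra.smul_def]
      ring
  have h4 : ∀ v : M, ((Polynomial.aeval SM p v : M) : L) =
      Polynomial.aeval (S : Module.End A L) p v := by
    intro v
    clear hp h3
    induction p using Polynomial.induction_on' with
    | add p q hp hq =>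
      rw [map_add, LinearMap.add_apply, Submodule.coe_add, hp, hq, map_add, LinearMap.add_apply]
    | monomial k a =>
      rw [Polynomial.aeval_monomial, Polynomial.aeval_monomial, Module.End.mul_apply,
        Module.algebraMap_end_apply, Submodule.coe_smul, h2, Module.End.mul_apply,
        Module.algebraMap_end_apply]
  obtain ⟨v, hv⟩ : ∃ v, f v ≠ 0 := by
    by_contra hcon
    push Not at hcon
    exact hf0 (LinearMap.ext hcon)
  have h5 : Polynomial.aeval SM p v = 0 := by
    apply Subtype.ext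
    rw [h4, hp]
    rfl
  have h6 := h3 v
  rw [h5, map_zero] at h6
  exact (mul_eq_zero.mp h6.symm).resolve_right hv

/-- a chain of eigenvalues -/
theorem chain [IsAlgClosed E] [IsLocalRing A] [IsNoetherianRing A] [Module.Finite A L]
    (hE : ∀ a ∈ maximalIdeal A, algebraMap A E a = 0)
    (I : Submodule A (Module.End A L)) (S : L ≃ₗ[A] L)
    (hS : ∀ x ∈ I, ((S : L →ₗ[A] L) ∘ₗ x ∘ₗ (S.symm : L →ₗ[A] L) : Module.End A L) ∈ I)
    (hS' : ∀ x ∈ I, ((S.symm : L →ₗ[A] L) ∘ₗ x ∘ₗ (S : L →ₗ[A] L) : Module.End A L) ∈ I)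
    (K : ℕ) (hK : I ^ K ≤ maximalIdeal A • (⊤ : Submodule A (Module.End A L)))
    (p : Polynomial A) (hp : Polynomial.aeval (S : Module.End A L) p = 0)
    (n : ℕ) (hn : (app I)^[n] ⊤ ≠ ⊥) :
    ∃ α : ℕ → E, (∀ i ≤ n, Polynomial.aeval (α i) p = 0) ∧
      ∀ i < n, ∃ c, IsEig I S c ∧ α (i + 1) = c * α i := by
  have hSM : ∀ (r : ℕ), ∀ v ∈ (app I)^[r] ⊤, S v ∈ (app I)^[r] ⊤ := by
    intro r
    induction r with
    | zero => intro v _; trivial
    | succ r ih =>
      rw [Function.iterate_succ_apply']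
      intro v hv
      have hle : app I ((app I)^[r] ⊤) ≤
          Submodule.comap (S : L →ₗ[A] L) (app I ((app I)^[r] ⊤)) := by
        rw [app_le]
        intro x hx w hw
        have h1 := app_mem (hS x hx) (ih w hw)
        simpa using h1
      exact hle hv
  have hSM' : ∀ (r : ℕ), ∀ v ∈ (app I)^[r] ⊤, S.symm v ∈ (app I)^[r] ⊤ := by
    intro r
    induction r with
    | zero => intro v _; trivial
    | succ r ih =>
      rw [Function.iterate_succ_apply']
      intro v hv
      have hle : app I ((app I)^[r] ⊤) ≤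
          Submodule.comap (S.symm : L →ₗ[A] L) (app I ((app I)^[r] ⊤)) := by
        rw [app_le]
        intro x hx w hw
        have h1 := app_mem (hS' x hx) (ih w hw)
        simpa using h1
      exact hle hv
  have main : ∀ (r : ℕ) (a : E), IsEigM I S ((app I)^[r] ⊤) a →
      ∃ α : ℕ → E, α r = a ∧ (∀ i ≤ r, Polynomial.aeval (α i) p = 0) ∧
      ∀ i < r, ∃ c, IsEig I S c ∧ α (i + 1) = c * α i := by
    intro r
    induction r with
    | zero =>
      intro a ha
      refine ⟨fun _ => a, rfl, ?_, fun i hi => absurd hi (Nat.not_lt_zero i)⟩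
      intro i _
      exact root I S _ (hSM 0) a ha p hp
    | succ r ih =>
      intro a ha
      have hroot := root I S _ (hSM (r + 1)) a ha p hp
      rw [Function.iterate_succ_apply'] at ha
      obtain ⟨c, a', hc, ha', hca⟩ := step I S hS hS' _ (hSM' r) a ha
      obtain ⟨α, h0, h1, h2⟩ := ih a' ha'
      refine ⟨Function.update α (r + 1) a, by simp, ?_, ?_⟩
      · intro i hi
        rcases Nat.lt_or_ge i (r + 1) with h | h
        · rw [Function.update_of_ne (by omega)]
          exact h1 i (by omega)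
        · have : i = r + 1 := by omega
          subst this
          rw [Function.update_self]
          exact hroot
      · intro i hi
        rcases Nat.lt_or_ge i r with h | h
        · rw [Function.update_of_ne (by omega), Function.update_of_ne (by omega)]
          exact h2 i h
        · have : i = r := by omega
          subst this
          rw [Function.update_self, Function.update_of_ne (by omega), h0]
          exact ⟨c, hc, hca⟩
  obtain ⟨a, ha⟩ := start hE I S hS _ (hSM n) K hK hn
  obtain ⟨α, -, h1, h2⟩ := main n a ha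
  exact ⟨α, h1, h2⟩

/-- A cycle of roots of `q`, each one obtained from the one before by multiplication with an
element of `C`, of length at most `n`. -/
def HasCycle (q : Polynomial E) (C : Set E) (n : ℕ) : Prop :=
  ∃ (m : ℕ) (α : ℕ → E), 1 ≤ m ∧ m ≤ n ∧ α m = α 0 ∧ (∀ i ≤ m, q.IsRoot (α i)) ∧
    ∀ i < m, ∃ c ∈ C, α (i + 1) = c * α i

theorem app_iterate_eq_bot [IsAlgClosed E] [IsLocalRing A] [IsNoetherianRing A]
    [Module.Finite A L] (hE : ∀ a ∈ maximalIdeal A, algebraMap A E a = 0)
    (I : Submodule A (Module.End A L)) (S : L ≃ₗ[A] L)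
    (hS : ∀ x ∈ I, ((S : L →ₗ[A] L) ∘ₗ x ∘ₗ (S.symm : L →ₗ[A] L) : Module.End A L) ∈ I)
    (hS' : ∀ x ∈ I, ((S.symm : L →ₗ[A] L) ∘ₗ x ∘ₗ (S : L →ₗ[A] L) : Module.End A L) ∈ I)
    (K : ℕ) (hK : I ^ K ≤ maximalIdeal A • (⊤ : Submodule A (Module.End A L)))
    (p : Polynomial A) (hpm : p.Monic) (hp : Polynomial.aeval (S : Module.End A L) p = 0)
    (n : ℕ) (hpn : p.natDegree ≤ n)
    (h : ¬ HasCycle (p.map (algebraMap A E)) {c | IsEig I S c} n) :
    (app I)^[n] ⊤ = ⊥ := by
  by_contra hn
  obtain ⟨α, h1, h2⟩ := chain (E := E) hE I S hS hS' K hK p hp n hn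
  apply h
  have hq0 : p.map (algebraMap A E) ≠ 0 := (hpm.map _).ne_zero
  have hroot : ∀ i ≤ n, (p.map (algebraMap A E)).IsRoot (α i) := by
    intro i hi
    rw [Polynomial.IsRoot.def, Polynomial.eval_map_algebraMap]
    exact h1 i hi
  classical
  have hcard : (p.map (algebraMap A E)).roots.toFinset.card < (Finset.range (n + 1)).card := by
    rw [Finset.card_range]
    calc (p.map (algebraMap A E)).roots.toFinset.card
        ≤ Multiset.card (p.map (algebraMap A E)).roots := Multiset.toFinset_card_le _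
      _ ≤ (p.map (algebraMap A E)).natDegree := Polynomial.card_roots' _
      _ ≤ p.natDegree := Polynomial.natDegree_map_le
      _ < n + 1 := by omega
  obtain ⟨i, hi, j, hj, hij, hαij⟩ := Finset.exists_ne_map_eq_of_card_lt_of_maps_to hcard
    (f := α) (by
      intro i hi
      rw [Finset.mem_coe, Multiset.mem_toFinset, Polynomial.mem_roots hq0]
      exact hroot i (by simpa [Nat.lt_succ_iff] using hi))
  wlog hlt : i < j generalizing i j
  · exact this j hj i hi hij.symm hαij.symm (by omega)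
  rw [Finset.mem_range] at hi hj
  refine ⟨j - i, fun k => α (i + k), by omega, by omega, ?_, ?_, ?_⟩
  · change α (i + (j - i)) = α (i + 0)
    rw [Nat.add_sub_cancel' hlt.le, Nat.add_zero]
    exact hαij.symm
  · intro k hk
    exact hroot _ (by omega)
  · intro k hk
    obtain ⟨c, hc, hcα⟩ := h2 (i + k) (by omega)
    exact ⟨c, hc, hcα⟩

theorem pow_eq_bot_of_app_iterate (I : Submodule A (Module.End A L)) (n : ℕ)
    (h : (app I)^[n] ⊤ = ⊥) : I ^ n = ⊥ := by
  have key : ∀ r, app (I ^ r) ⊤ ≤ (app I)^[r] ⊤ := by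
    intro r
    induction r with
    | zero => exact le_top
    | succ r ih =>
      rw [Function.iterate_succ_apply', pow_succ', app_le]
      intro x hx v hv
      have hle : I * I ^ r ≤ Submodule.comap (LinearMap.applyₗ v) (app I ((app I)^[r] ⊤)) := by
        rw [Submodule.mul_le]
        intro y hy z hz
        exact app_mem hy (ih (app_mem hz hv))
      exact hle hx
  rw [eq_bot_iff]
  intro x hx
  rw [Submodule.mem_bot]
  ext v
  have := key n (app_mem hx (Submodule.mem_top (x := v)))
  rw [h] at this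
  exact this

end general

end Pool.Agent.U419.UG
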