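import Pool.Agent.U419.UG.Chain
import Pool.Agent.W569.UG.MainC

/-!
Representations of a topological group: the restriction to a normal subgroup on which the
representation is residually unipotent (helper419, for MP_b3f132_ag).
-/

set_option autoImplicit false

namespace Pool.Agent.U419.UG

open Matrix IsLocalRing

/-- the eigenvalues of the conjugation by `σ` on the continuous homomorphisms from `H` to the
additive group of `E` which are trivial on `Ur` -/
def EigH1 {G : Type} [Group G] [TopologicalSpace G] (H : Subgroup G) (Ur : Set G) (E : Type)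
    [Field E] (σ : G) : Set E :=
  {c | ∃ χ : H → E, (∃ g, χ g ≠ 0) ∧ (∀ g h, χ (g * h) = χ g + χ h) ∧
    (∃ U : Subgroup H, IsOpen (U : Set H) ∧ ∀ g ∈ U, χ g = 0) ∧
    (∀ τ : H, (τ : G) ∈ Ur → χ τ = 0) ∧ ∀ g h : H, (h : G) = σ * g * σ⁻¹ → χ h = c * χ g}

theorem artin_rees {A B : Type} [CommRing A] [IsLocalRing A] [IsNoetherianRing A] [Ring B]
    [Algebra A B] [Module.Finite A B] (I : Submodule A B) :
    ∃ k : ℕ, I ⊓ (maximalIdeal A ^ k) • (⊤ : Submodule A B) ≤ maximalIdeal A • I := by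
  obtain ⟨k, hk⟩ := Ideal.exists_pow_inf_eq_pow_smul (maximalIdeal A) I
  refine ⟨k + 1, ?_⟩
  rw [inf_comm, hk (k + 1) (by omega), Nat.add_sub_cancel_left, pow_one]
  exact Submodule.smul_mono le_rfl inf_le_right

variable {A : Type} [CommRing A] [IsLocalRing A] [IsNoetherianRing A] [TopologicalSpace A]
  {G : Type} [Group G] [TopologicalSpace G] [IsTopologicalGroup G] {H : Subgroup G} [hH : H.Normal]
  {E : Type} [Field E] [IsAlgClosed E] [Algebra A E]

theorem nilG (hE : ∀ a ∈ maximalIdeal A, algebraMap A E a = 0) {p : ℕ} (hp : p.Prime)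
    (hA : IsAdic (maximalIdeal A)) (hfin : Finite (ResidueField A))
    (hpA : (p : A) ∈ maximalIdeal A) {n : ℕ}
    (ρ : G →* GL (Fin n) A) (hρ : Continuous ρ) (Ur : Set G)
    (hur : ∀ τ : H, (τ : G) ∈ Ur → ρ τ = 1)
    (hres : ∀ g : H, ∃ M : ℕ, ∀ i j,
      (((ρ g : Matrix (Fin n) (Fin n) A) - 1) ^ M) i j ∈ maximalIdeal A) (σ : G)
    (hcyc : ¬ HasCycle ((ρ σ : Matrix (Fin n) (Fin n) A).charpoly.map (algebraMap A E))
      (EigH1 H Ur E σ) n) :
    (Submodule.span A (Set.range fun g : H =>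
      (ρ g : Matrix (Fin n) (Fin n) A) - 1)) ^ n = ⊥ := by
  classical
  have : Nontrivial A := inferInstance
  set X : H → Matrix (Fin n) (Fin n) A := fun g => (ρ g : Matrix (Fin n) (Fin n) A) - 1 with hX
  set I : Submodule A (Matrix (Fin n) (Fin n) A) := Submodule.span A (Set.range X) with hI
  have hXm : ∀ g h, X (g * h) = X g + X h + X g * X h := by
    intro g h
    simp only [hX, Subgroup.coe_mul, map_mul, Units.val_mul]
    noncomm_ring
  have hconj : ∀ (γ : G) (g : H), (ρ γ : Matrix (Fin n) (Fin n) A) * X g *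
      (((ρ γ)⁻¹ : GL (Fin n) A) : Matrix (Fin n) (Fin n) A) = X (MulAut.conjNormal γ g) := by
    intro γ g
    simp only [hX, MulAut.conjNormal_apply, map_mul, map_inv, Units.val_mul]
    rw [mul_sub, sub_mul, mul_one, Units.mul_inv]
  have hconjI : ∀ (γ : G), ∀ x ∈ I, (ρ γ : Matrix (Fin n) (Fin n) A) * x *
      (((ρ γ)⁻¹ : GL (Fin n) A) : Matrix (Fin n) (Fin n) A) ∈ I := by
    intro γ x hx
    induction hx using Submodule.span_induction with
    | mem x hx =>
      obtain ⟨g, rfl⟩ := hx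
      rw [hconj]
      exact Submodule.subset_span ⟨_, rfl⟩
    | zero => rw [mul_zero, zero_mul]; exact Submodule.zero_mem _
    | add x y _ _ hx hy => rw [mul_add, add_mul]; exact Submodule.add_mem _ hx hy
    | smul a x _ hx => rw [mul_smul_comm, smul_mul_assoc]; exact Submodule.smul_mem _ _ hx
  -- transfer to endomorphisms
  let e : Matrix (Fin n) (Fin n) A ≃ₐ[A] Module.End A (Fin n → A) := Matrix.toLinAlgEquiv'
  have he : ∀ (x : Matrix (Fin n) (Fin n) A) (v : Fin n → A), e x v = x *ᵥ v := fun x v => rfl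
  let I' : Submodule A (Module.End A (Fin n → A)) := I.map e.toLinearMap
  have hI'mem : ∀ x, e x ∈ I' ↔ x ∈ I := by
    intro x
    constructor
    · rintro ⟨y, hy, hxy⟩
      have : y = x := e.injective hxy
      exact this ▸ hy
    · intro hx
      exact ⟨x, hx, rfl⟩
  have hpow : ∀ k : ℕ, I' ^ k = (I ^ k).map e.toLinearMap := by
    intro k
    exact (Submodule.map_pow I e.toAlgHom k).symm
  let S : (Fin n → A) ≃ₗ[A] (Fin n → A) :=
    LinearEquiv.ofLinearMap (e (ρ σ : Matrix (Fin n) (Fin n) A))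
      (e (((ρ σ)⁻¹ : GL (Fin n) A) : Matrix (Fin n) (Fin n) A)) (by
        change e (ρ σ : Matrix (Fin n) (Fin n) A) * e (((ρ σ)⁻¹ : GL (Fin n) A) :
          Matrix (Fin n) (Fin n) A) = 1
        rw [← map_mul, Units.mul_inv, map_one]) (by
        change e (((ρ σ)⁻¹ : GL (Fin n) A) : Matrix (Fin n) (Fin n) A) *
          e (ρ σ : Matrix (Fin n) (Fin n) A) = 1
        rw [← map_mul, Units.inv_mul, map_one])
  have hS1 : (S : (Fin n → A) →ₗ[A] (Fin n → A)) = e (ρ σ : Matrix (Fin n) (Fin n) A) := rfl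
  have hS2 : (S.symm : (Fin n → A) →ₗ[A] (Fin n → A)) =
    e (((ρ σ)⁻¹ : GL (Fin n) A) : Matrix (Fin n) (Fin n) A) := rfl
  have hconjE : ∀ x : Matrix (Fin n) (Fin n) A,
      ((S : (Fin n → A) →ₗ[A] (Fin n → A)) ∘ₗ (e x) ∘ₗ
        (S.symm : (Fin n → A) →ₗ[A] (Fin n → A)) : Module.End A (Fin n → A)) =
      e ((ρ σ : Matrix (Fin n) (Fin n) A) * x *
      (((ρ σ)⁻¹ : GL (Fin n) A) : Matrix (Fin n) (Fin n) A)) := by
    intro x
    rw [hS1, hS2, map_mul, map_mul, mul_assoc]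
    rfl
  have hconjE' : ∀ x : Matrix (Fin n) (Fin n) A,
      ((S.symm : (Fin n → A) →ₗ[A] (Fin n → A)) ∘ₗ (e x) ∘ₗ
        (S : (Fin n → A) →ₗ[A] (Fin n → A)) : Module.End A (Fin n → A)) =
      e ((((ρ σ)⁻¹ : GL (Fin n) A) : Matrix (Fin n) (Fin n) A) * x *
      (ρ σ : Matrix (Fin n) (Fin n) A)) := by
    intro x
    rw [hS1, hS2, map_mul, map_mul, mul_assoc]
    rfl
  have hSI : ∀ x ∈ I', ((S : (Fin n → A) →ₗ[A] (Fin n → A)) ∘ₗ x ∘ₗ
      (S.symm : (Fin n → A) →ₗ[A] (Fin n → A)) : Module.End A (Fin n → A)) ∈ I' := by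
    rintro _ ⟨x, hx, rfl⟩
    have := (hI'mem _).2 (hconjI σ x hx)
    rw [← hconjE] at this
    exact this
  have hSI' : ∀ x ∈ I', ((S.symm : (Fin n → A) →ₗ[A] (Fin n → A)) ∘ₗ x ∘ₗ
      (S : (Fin n → A) →ₗ[A] (Fin n → A)) : Module.End A (Fin n → A)) ∈ I' := by
    rintro _ ⟨x, hx, rfl⟩
    have h1 := hconjI σ⁻¹ x hx
    rw [map_inv, inv_inv] at h1
    have := (hI'mem _).2 h1
    rw [← hconjE'] at this
    exact this
  have hK : I' ^ n ≤ maximalIdeal A • (⊤ : Submodule A (Module.End A (Fin n → A))) := by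
    rw [hpow]
    have h1 := Submodule.map_mono (f := e.toLinearMap)
      (Pool.Agent.W569.UG.span_pow_le hp hfin hpA (ρ.comp H.subtype) hres)
    refine h1.trans ?_
    rw [Submodule.map_smul'']
    exact Submodule.smul_mono le_rfl le_top
  have hpoly : Polynomial.aeval (S : Module.End A (Fin n → A))
      (ρ σ : Matrix (Fin n) (Fin n) A).charpoly = 0 := by
    have h1 := Polynomial.aeval_algHom_apply e.toAlgHom (ρ σ : Matrix (Fin n) (Fin n) A)
      (ρ σ : Matrix (Fin n) (Fin n) A).charpoly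
    rw [Matrix.aeval_self_charpoly, map_zero] at h1
    exact h1
  have hdeg : (ρ σ : Matrix (Fin n) (Fin n) A).charpoly.natDegree ≤ n := by
    rw [Matrix.charpoly_natDegree_eq_dim, Fintype.card_fin]
  have hbot := app_iterate_eq_bot hE I' S hSI hSI' n hK _ (Matrix.charpoly_monic _) hpoly n hdeg
    (fun hc => hcyc ?_)
  · have h1 := pow_eq_bot_of_app_iterate I' n hbot
    rw [hpow] at h1
    rw [eq_bot_iff]
    intro x hx
    have h2 : e x ∈ (I ^ n).map e.toLinearMap := ⟨x, hx, rfl⟩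
    rw [h1, Submodule.mem_bot] at h2
    rw [Submodule.mem_bot]
    exact e.injective (h2.trans (map_zero e).symm)
  · obtain ⟨m, α, h1, h2, h3, h4, h5⟩ := hc
    refine ⟨m, α, h1, h2, h3, h4, fun i hi => ?_⟩
    obtain ⟨c, hc, hcα⟩ := h5 i hi
    refine ⟨c, ?_, hcα⟩
    obtain ⟨ψ, hψ0, hψ1, hψ2⟩ := hc
    have hXI : ∀ g, e (X g) ∈ I' := fun g => (hI'mem _).2 (Submodule.subset_span ⟨g, rfl⟩)
    -- the functional on `I`
    let θ : I →ₗ[A] E := ψ.comp
      ((e.toLinearMap.restrict (p := I) (q := I') (fun x hx => (hI'mem x).2 hx)))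
    have hθ : ∀ x : I, θ x = ψ ⟨e x, (hI'mem _).2 x.2⟩ := fun x => rfl
    have hθX : ∀ g, X g ∈ I := fun g => Submodule.subset_span ⟨g, rfl⟩
    have hθ1 : ∀ x : I, (x : Matrix (Fin n) (Fin n) A) ∈ I * I → θ x = 0 := by
      intro x hx
      rw [hθ]
      apply hψ1
      have h6 := hpow 2
      rw [pow_two, pow_two] at h6
      rw [h6]
      exact ⟨x, hx, rfl⟩
    refine ⟨fun g => θ ⟨X g, hθX g⟩, ?_, ?_, ?_, ?_, ?_⟩
    · by_contra hcon
      push Not at hcon
      apply hψ0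
      have hle : I ≤ (LinearMap.ker θ).map I.subtype := by
        refine hI.le.trans (Submodule.span_le.2 ?_)
        rintro _ ⟨g, rfl⟩
        exact ⟨⟨X g, hθX g⟩, hcon g, rfl⟩
      ext ⟨w, hw⟩
      obtain ⟨x, hx, rfl⟩ := hw
      obtain ⟨w', hw', hww⟩ := hle hx
      have h7 : w' = ⟨x, hx⟩ := Subtype.ext hww
      rw [LinearMap.zero_apply]
      rw [h7] at hw'
      exact hw'
    · intro g h
      rw [← map_add, ← sub_eq_zero, ← map_sub]
      apply hθ1
      change X (g * h) - (X g + X h) ∈ I * I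
      rw [hXm, add_sub_cancel_left]
      exact Submodule.mul_mem_mul (hθX g) (hθX h)
    · obtain ⟨k, hk⟩ := artin_rees (A := A) I
      obtain ⟨U, hU, hUX⟩ := Pool.Agent.W569.UG.exists_open' (H := H) hA ρ hρ k
      refine ⟨U, hU, fun g hg => ?_⟩
      have h6 : X g ∈ maximalIdeal A • I := hk ⟨hθX g, hUX g hg⟩
      have hle : maximalIdeal A • I ≤ (LinearMap.ker θ).map I.subtype := by
        rw [Submodule.smul_le]
        intro a ha x hx
        refine ⟨a • ⟨x, hx⟩, ?_, rfl⟩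
        change θ (a • ⟨x, hx⟩) = 0
        rw [map_smul, ← algebraMap_smul E a, hE a ha, zero_smul]
      obtain ⟨w', hw', hww⟩ := hle h6
      have h7 : w' = ⟨X g, hθX g⟩ := Subtype.ext hww
      rw [h7] at hw'
      exact hw'
    · intro τ hτ
      have h6 : X τ = 0 := by
        simp only [hX]
        rw [hur τ hτ, Units.val_one, sub_self]
      have h7 : (⟨X τ, hθX τ⟩ : I) = 0 := Subtype.ext h6
      change θ ⟨X τ, hθX τ⟩ = 0
      rw [h7, map_zero]
    · intro g h hgh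
      change θ ⟨X h, hθX h⟩ = c * θ ⟨X g, hθX g⟩
      rw [hθ, hθ]
      apply hψ2
      change e (X h) = (S : (Fin n → A) →ₗ[A] (Fin n → A)) ∘ₗ (e (X g)) ∘ₗ
        (S.symm : (Fin n → A) →ₗ[A] (Fin n → A))
      rw [hconjE, hconj]
      congr 2
      exact Subtype.ext hgh

end Pool.Agent.U419.UG
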