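import Pool.Agent.U419.UG.Rig

/-!
Uniqueness of lifts which extend to a bigger group: classes fixed by the whole group
(helper419, for MP_e3793a_ag).
-/

set_option autoImplicit false

namespace Pool.Agent.U419.UG

open Matrix IsLocalRing

section step

variable {A : Type} [CommRing A] [IsLocalRing A] {n : ℕ}

/-- there is a nonzero class in `H ^ 1 (H, ad r)` which is fixed by all of `G` -/
def HasFix {κ : Type} [Field κ] {G : Type} [Group G] [TopologicalSpace G] (H : Subgroup G)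
    (Ur : Set G) (r : G →* GL (Fin n) κ) : Prop :=
  ∃ b : H → Matrix (Fin n) (Fin n) κ,
    (∀ g h : H, b (g * h) = b g + (r g).1 * b h * (r g)⁻¹.1) ∧
    (∃ U : Subgroup H, IsOpen (U : Set H) ∧ ∀ g ∈ U, b g = 0) ∧
    (∀ τ : H, (τ : G) ∈ Ur → b τ = 0) ∧
    (∀ σ : G, ∃ y : Matrix (Fin n) (Fin n) κ, ∀ g h : H, (h : G) = σ * g * σ⁻¹ →
      b h = (r σ).1 * (b g + y - (r g).1 * y * (r g)⁻¹.1) * (r σ)⁻¹.1) ∧
    ¬ ∃ x : Matrix (Fin n) (Fin n) κ, ∀ g : H, b g = x - (r g).1 * x * (r g)⁻¹.1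

theorem step_fix {G : Type} [Group G] [TopologicalSpace G] {H : Subgroup G} [hH : H.Normal]
    (hn : 0 < n) (Ur : Set G) (ρ₁ ρ₂ : G →* GL (Fin n) A)
    (hur₁ : ∀ τ : H, (τ : G) ∈ Ur → ρ₁ τ = 1) (hur₂ : ∀ τ : H, (τ : G) ∈ Ur → ρ₂ τ = 1)
    (hspan : Submodule.span A (Set.range fun g : H => (ρ₁ g : Matrix (Fin n) (Fin n) A)) = ⊤)
    (hne : ¬ HasFix H Ur ((Matrix.GeneralLinearGroup.map (residue A)).comp ρ₁))
    (J : Ideal A) (e : A) (he : ∀ a ∈ maximalIdeal A, a * e ∈ J) (hem : e ∈ maximalIdeal A)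
    (heJ : e ∉ J) (hJm : J ≤ maximalIdeal A)
    (hU : ∃ U : Subgroup H, IsOpen (U : Set H) ∧ ∀ g ∈ U, RJ J n (ρ₁ g) = 1 ∧ RJ J n (ρ₂ g) = 1)
    (X : GL (Fin n) A) (hX : bar X = 1)
    (hXg : ∀ g : H, RJ (J ⊔ Ideal.span {e}) n (ρ₂ g) =
      RJ (J ⊔ Ideal.span {e}) n (X * ρ₁ g * X⁻¹)) :
    ∃ X' : GL (Fin n) A, bar X' = 1 ∧ ∀ g : H, RJ J n (ρ₂ g) = RJ J n (X' * ρ₁ g * X'⁻¹) := by
  classical
  have hXi : bar X⁻¹ = 1 := by
    have h1 : bar (X * X⁻¹) = 1 := by rw [mul_inv_cancel, bar, Units.val_one, map_one]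
    rwa [bar_mul, hX, one_mul] at h1
  have hbarc : ∀ M : GL (Fin n) A, bar (X * M * X⁻¹) = bar M := by
    intro M
    rw [bar_mul, bar_mul, hX, hXi, one_mul, mul_one]
  have hbarci : ∀ M : GL (Fin n) A, bar (X * M * X⁻¹)⁻¹ = bar M⁻¹ := by
    intro M
    rw [← hbarc M⁻¹]
    congr 1
    group
  choose β hβ using fun g : H => exists_eta J e he hem (hXg g)
  let η := eta (n := n) J e he hem
  have hconjP : ∀ (M : GL (Fin n) A) (B : Matrix (Fin n) (Fin n) (ResidueField A)),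
      RJ J n (X * M * X⁻¹) * η (Multiplicative.ofAdd B) * (RJ J n (X * M * X⁻¹))⁻¹ =
      η (Multiplicative.ofAdd (bar M * B * bar M⁻¹)) := by
    intro M B
    have h1 := eta_conj J e he hem (X * M * X⁻¹) B
    have h2 : (residue A).mapMatrix ((X * M * X⁻¹ : GL (Fin n) A) : Matrix (Fin n) (Fin n) A) =
        bar M := hbarc M
    have h3 : (residue A).mapMatrix (((X * M * X⁻¹)⁻¹ : GL (Fin n) A) :
        Matrix (Fin n) (Fin n) A) = bar M⁻¹ := hbarci M
    rw [h2, h3] at h1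
    exact h1
  -- the cocycle property
  have hcoc : ∀ g h : H, β (g * h) = β g + bar (ρ₁ g) * β h * bar (ρ₁ g)⁻¹ := by
    intro g h
    apply eta_inj J e he hem heJ
    have h1 := hβ (g * h)
    have h2 : RJ J n (ρ₂ ↑(g * h)) = RJ J n (ρ₂ g) * RJ J n (ρ₂ h) := by
      rw [← map_mul, ← map_mul]
      rfl
    have h3 : RJ J n (X * ρ₁ ↑(g * h) * X⁻¹) = RJ J n (X * ρ₁ g * X⁻¹) *
        RJ J n (X * ρ₁ h * X⁻¹) := by
      rw [← map_mul]
      congr 1
      rw [Subgroup.coe_mul, map_mul]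
      group
    rw [h2, h3, hβ g, hβ h] at h1
    have h4 : eta J e he hem (Multiplicative.ofAdd (β (g * h))) =
        η (Multiplicative.ofAdd (β g)) * (RJ J n (X * ρ₁ g * X⁻¹) *
          η (Multiplicative.ofAdd (β h)) * (RJ J n (X * ρ₁ g * X⁻¹))⁻¹) := by
      have h5 := (mul_inv_eq_iff_eq_mul.2 h1.symm.symm).symm
      rw [h5]
      simp only [η]
      group
    rw [h4, hconjP, ← map_mul]
    rfl
  -- continuity and ramification
  have hopen : ∃ U : Subgroup H, IsOpen (U : Set H) ∧ ∀ g ∈ U, β g = 0 := by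
    obtain ⟨U, hU, hUg⟩ := hU
    refine ⟨U, hU, fun g hg => ?_⟩
    apply eta_inj J e he hem heJ
    have h1 := hβ g
    obtain ⟨h2, h3⟩ := hUg g hg
    have h4 : RJ J n (X * ρ₁ g * X⁻¹) = 1 := by
      rw [map_mul, map_mul, h2, mul_one, ← map_mul, mul_inv_cancel, map_one]
    rw [h3, h4, mul_one] at h1
    rw [← h1]
    exact (map_one η).symm
  have hram : ∀ τ : H, (τ : G) ∈ Ur → β τ = 0 := by
    intro τ hτ
    apply eta_inj J e he hem heJ
    have h1 := hβ τ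
    rw [hur₁ τ hτ, hur₂ τ hτ, mul_one, mul_inv_cancel, map_one, mul_one] at h1
    rw [← h1]
    exact (map_one η).symm
  have hall : ∀ σ : G, ∃ y : Matrix (Fin n) (Fin n) (ResidueField A), ∀ g h : H,
      (h : G) = σ * g * σ⁻¹ →
      β h = bar (ρ₁ σ) * (β g + y - bar (ρ₁ g) * y * bar (ρ₁ g)⁻¹) * bar (ρ₁ σ)⁻¹ := by
    intro σ
    -- the action of `σ`
    set s₁ : GL (Fin n) A := X * ρ₁ σ * X⁻¹ with hs₁
    set s₂ : GL (Fin n) A := ρ₂ σ with hs₂
    set Z : GL (Fin n) A := s₁⁻¹ * s₂ with hZ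
    have hp : ∀ g h : H, (h : G) = σ * g * σ⁻¹ →
        X * ρ₁ h * X⁻¹ = s₁ * (X * ρ₁ g * X⁻¹) * s₁⁻¹ := by
      intro g h hgh
      rw [hgh, hs₁, map_mul, map_mul, map_inv]
      group
    have hq : ∀ g h : H, (h : G) = σ * g * σ⁻¹ → ρ₂ h = s₂ * ρ₂ g * s₂⁻¹ := by
      intro g h hgh
      rw [hgh, hs₂, map_mul, map_mul, map_inv]
    have hconjH : ∀ g : H, ∃ h : H, (h : G) = σ * g * σ⁻¹ := fun g =>
      ⟨⟨σ * g * σ⁻¹, hH.conj_mem g g.2 σ⟩, rfl⟩
    have hcommZ : ∀ g : H, RJ (J ⊔ Ideal.span {e}) n (Z * (X * ρ₁ g * X⁻¹)) =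
        RJ (J ⊔ Ideal.span {e}) n ((X * ρ₁ g * X⁻¹) * Z) := by
      intro g
      obtain ⟨h, hh⟩ := hconjH g
      have h1 := hXg h
      rw [hp g h hh, hq g h hh] at h1
      rw [map_mul, map_mul, hXg g, map_mul (RJ (J ⊔ Ideal.span {e}) n) (s₁ * (X * ρ₁ g * X⁻¹)),
        map_mul (RJ (J ⊔ Ideal.span {e}) n) s₁] at h1
      rw [hZ, map_mul (RJ (J ⊔ Ideal.span {e}) n) (s₁⁻¹ * s₂),
        map_mul (RJ (J ⊔ Ideal.span {e}) n) s₁⁻¹, map_mul (RJ (J ⊔ Ideal.span {e}) n) (X * ρ₁ g * X⁻¹),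
        map_mul (RJ (J ⊔ Ideal.span {e}) n) s₁⁻¹, map_inv]
      rw [map_inv, map_inv] at h1
      have h2 := mul_inv_eq_iff_eq_mul.1 h1
      rw [mul_assoc, h2]
      group
    have hJ1m : J ⊔ Ideal.span {e} ≤ maximalIdeal A :=
      sup_le hJm ((Ideal.span_singleton_le_iff_mem _).2 hem)
    have hcomm : ∀ (M : Matrix (Fin n) (Fin n) A) (i j : Fin n),
        ((Z : Matrix (Fin n) (Fin n) A) * M - M * Z) i j ∈ J ⊔ Ideal.span {e} := by
      let D : Matrix (Fin n) (Fin n) A →ₗ[A] Matrix (Fin n) (Fin n) A :=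
        (LinearMap.mulLeft A (Z : Matrix (Fin n) (Fin n) A) -
          LinearMap.mulRight A (Z : Matrix (Fin n) (Fin n) A)) ∘ₗ
        LinearMap.mulLeft A (X : Matrix (Fin n) (Fin n) A) ∘ₗ
        LinearMap.mulRight A ((X⁻¹ : GL (Fin n) A) : Matrix (Fin n) (Fin n) A)
      have hD : ∀ M, D M = (Z : Matrix (Fin n) (Fin n) A) *
          ((X : Matrix (Fin n) (Fin n) A) * (M * ((X⁻¹ : GL (Fin n) A) :
            Matrix (Fin n) (Fin n) A))) -
          ((X : Matrix (Fin n) (Fin n) A) * (M * ((X⁻¹ : GL (Fin n) A) :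
            Matrix (Fin n) (Fin n) A))) * (Z : Matrix (Fin n) (Fin n) A) := fun M => rfl
      have hle : Submodule.span A (Set.range fun g : H => (ρ₁ g : Matrix (Fin n) (Fin n) A)) ≤
          (matIdeal (n := n) (J ⊔ Ideal.span {e})).comap D := by
        rw [Submodule.span_le]
        rintro _ ⟨g, rfl⟩
        change D (ρ₁ g : Matrix (Fin n) (Fin n) A) ∈ matIdeal (J ⊔ Ideal.span {e})
        intro i j
        have h1 := RJ_eq_iff.1 (hcommZ g) i j
        rw [← Matrix.sub_apply] at h1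
        rw [hD]
        have h2 : ((Z * (X * ρ₁ g * X⁻¹) : GL (Fin n) A) : Matrix (Fin n) (Fin n) A) =
            (Z : Matrix (Fin n) (Fin n) A) *
          ((X : Matrix (Fin n) (Fin n) A) * ((ρ₁ g : Matrix (Fin n) (Fin n) A) *
            ((X⁻¹ : GL (Fin n) A) : Matrix (Fin n) (Fin n) A))) := by
          rw [Units.val_mul Z, Units.val_mul (X * ρ₁ g), Units.val_mul X (ρ₁ g),
            mul_assoc (X : Matrix (Fin n) (Fin n) A)]
        have h3 : ((X * ρ₁ g * X⁻¹ * Z : GL (Fin n) A) : Matrix (Fin n) (Fin n) A) =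
          ((X : Matrix (Fin n) (Fin n) A) * ((ρ₁ g : Matrix (Fin n) (Fin n) A) *
            ((X⁻¹ : GL (Fin n) A) : Matrix (Fin n) (Fin n) A))) *
            (Z : Matrix (Fin n) (Fin n) A) := by
          rw [Units.val_mul (X * ρ₁ g * X⁻¹) Z, Units.val_mul (X * ρ₁ g), Units.val_mul X (ρ₁ g),
            mul_assoc (X : Matrix (Fin n) (Fin n) A)]
        rw [h2, h3] at h1
        exact h1
      rw [hspan] at hle
      intro M i j
      have h1 := hle (show ((X⁻¹ : GL (Fin n) A) : Matrix (Fin n) (Fin n) A) * M *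
        (X : Matrix (Fin n) (Fin n) A) ∈ ⊤ from trivial) i j
      rw [hD] at h1
      have h2 : (X : Matrix (Fin n) (Fin n) A) * (((X⁻¹ : GL (Fin n) A) :
          Matrix (Fin n) (Fin n) A) * M * (X : Matrix (Fin n) (Fin n) A) *
          ((X⁻¹ : GL (Fin n) A) : Matrix (Fin n) (Fin n) A)) = M := by
        rw [mul_assoc (((X⁻¹ : GL (Fin n) A) : Matrix (Fin n) (Fin n) A) * M), Units.mul_inv, mul_one,
          ← mul_assoc, Units.mul_inv, one_mul]
      rw [h2] at h1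
      exact h1
    -- `Z` is a scalar modulo `J + (e)`
    have hsc := scalar_of_comm (J ⊔ Ideal.span {e}) hn (Z : Matrix (Fin n) (Fin n) A) hcomm
    set z : A := (Z : Matrix (Fin n) (Fin n) A) ⟨0, hn⟩ ⟨0, hn⟩ with hz
    have hzu : IsUnit z := by
      by_contra hcon
      have hzm : z ∈ maximalIdeal A := (mem_maximalIdeal z).2 hcon
      have hZm : ∀ i j, (Z : Matrix (Fin n) (Fin n) A) i j ∈ maximalIdeal A := by
        intro i j
        have h1 := hJ1m (hsc i j)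
        rw [Matrix.sub_apply, Matrix.smul_apply, smul_eq_mul] at h1
        have h2 := Ideal.add_mem _ h1 (Ideal.mul_mem_right ((1 : Matrix (Fin n) (Fin n) A) i j) _ hzm)
        rwa [sub_add_cancel] at h2
      have h3 : ((Z * Z⁻¹ : GL (Fin n) A) : Matrix (Fin n) (Fin n) A) ⟨0, hn⟩ ⟨0, hn⟩ ∈
          maximalIdeal A := by
        rw [Units.val_mul, Matrix.mul_apply]
        exact Ideal.sum_mem _ fun k _ => Ideal.mul_mem_right _ _ (hZm _ _)
      rw [mul_inv_cancel, Units.val_one, Matrix.one_apply_eq] at h3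
      exact (Ideal.ne_top_iff_one _).1 (IsLocalRing.maximalIdeal.isMaximal A).ne_top h3
    let z1 : GL (Fin n) A := Units.map (Matrix.scalar (Fin n) : A →+* _).toMonoidHom hzu.unit
    have hz1 : (z1 : Matrix (Fin n) (Fin n) A) = z • 1 := by
      change Matrix.scalar (Fin n) z = z • (1 : Matrix (Fin n) (Fin n) A)
      rw [Matrix.smul_one_eq_diagonal]
      rfl
    have hz1c : ∀ M : GL (Fin n) A, z1 * M = M * z1 := by
      intro M
      apply Units.ext
      rw [Units.val_mul, Units.val_mul, hz1, smul_mul_assoc, one_mul, mul_smul_comm, mul_one]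
    have hZz : RJ (J ⊔ Ideal.span {e}) n Z = RJ (J ⊔ Ideal.span {e}) n z1 := by
      rw [RJ_eq_iff]
      intro i j
      have h1 := hsc i j
      rw [Matrix.sub_apply] at h1
      rw [hz1]
      exact h1
    obtain ⟨y, hy⟩ := exists_eta J e he hem hZz
    have hs2 : s₂ = s₁ * Z := by rw [hZ]; group
    have hsig : ∀ g h : H, (h : G) = σ * g * σ⁻¹ →
        β h = bar (ρ₁ σ) * (β g + y - bar (ρ₁ g) * y * bar (ρ₁ g)⁻¹) * bar (ρ₁ σ)⁻¹ := by
      intro g h hgh
      apply eta_inj J e he hem heJ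
      have h1 := hβ h
      rw [hp g h hgh, hq g h hgh, hs2] at h1
      have h2 : s₁ * Z * ρ₂ g * (s₁ * Z)⁻¹ = s₁ * (Z * ρ₂ g * Z⁻¹) * s₁⁻¹ := by group
      rw [h2] at h1
      have h3 : RJ J n (Z * ρ₂ g * Z⁻¹) = η (Multiplicative.ofAdd y) * RJ J n (ρ₂ g) *
          (η (Multiplicative.ofAdd y))⁻¹ := by
        rw [map_mul, map_mul, map_inv, hy]
        have h4 : RJ J n z1 * RJ J n (ρ₂ g) * (RJ J n z1)⁻¹ = RJ J n (ρ₂ g) := by
          rw [← map_inv, ← map_mul, ← map_mul, hz1c, mul_inv_cancel_right]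
        calc _ = η (Multiplicative.ofAdd y) * (RJ J n z1 * RJ J n (ρ₂ g) * (RJ J n z1)⁻¹) *
              (η (Multiplicative.ofAdd y))⁻¹ := by simp only [η]; group
          _ = _ := by rw [h4]
      have h5 : η (Multiplicative.ofAdd (β h)) = RJ J n s₁ * (η (Multiplicative.ofAdd y) *
          η (Multiplicative.ofAdd (β g)) * (RJ J n (X * ρ₁ g * X⁻¹) *
            η (Multiplicative.ofAdd (-y)) * (RJ J n (X * ρ₁ g * X⁻¹))⁻¹)) * (RJ J n s₁)⁻¹ := by
        have h6 : η (Multiplicative.ofAdd (-y)) = (η (Multiplicative.ofAdd y))⁻¹ := by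
          rw [← map_inv]
          rfl
        rw [map_mul, map_mul, h3, hβ g, map_inv] at h1
        have h7 : η (Multiplicative.ofAdd (β h)) * RJ J n (s₁ * (X * ρ₁ g * X⁻¹) * s₁⁻¹) =
          RJ J n s₁ * (η (Multiplicative.ofAdd y) * (η (Multiplicative.ofAdd (β g)) *
            RJ J n (X * ρ₁ g * X⁻¹)) * (η (Multiplicative.ofAdd y))⁻¹) * (RJ J n s₁)⁻¹ := h1.symm
        have h8 : RJ J n (s₁ * (X * ρ₁ g * X⁻¹) * s₁⁻¹) =
            RJ J n s₁ * RJ J n (X * ρ₁ g * X⁻¹) * (RJ J n s₁)⁻¹ := by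
          rw [map_mul (RJ J n) (s₁ * (X * ρ₁ g * X⁻¹)), map_mul (RJ J n) s₁, map_inv]
        rw [h8] at h7
        rw [eq_mul_inv_of_mul_eq h7, h6]
        group
      rw [hconjP, ← map_mul, ← map_mul] at h5
      have h9 := hconjP (ρ₁ σ) (Multiplicative.toAdd (Multiplicative.ofAdd y *
        Multiplicative.ofAdd (β g) * Multiplicative.ofAdd (bar (ρ₁ g) * -y * bar (ρ₁ g)⁻¹)))
      rw [ofAdd_toAdd, ← hs₁] at h9
      rw [h9] at h5
      refine h5.trans ?_
      simp only [η]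
      congr 2
      change bar (ρ₁ σ) * (y + β g + bar (ρ₁ g) * -y * bar (ρ₁ g)⁻¹) * bar (ρ₁ σ)⁻¹ = _
      congr 2
      rw [mul_neg, neg_mul]
      abel
    exact ⟨y, hsig⟩
  -- the cocycle is a coboundary
  obtain ⟨x, hx⟩ : ∃ x : Matrix (Fin n) (Fin n) (ResidueField A), ∀ g : H,
      β g = x - bar (ρ₁ g) * x * bar (ρ₁ g)⁻¹ := by
    by_contra hcon
    apply hne
    exact ⟨β, hcoc, hopen, hram, hall, hcon⟩
  obtain ⟨x', rfl⟩ := exists_lift x
  -- the correction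
  have hbar1 : (residue A).mapMatrix (1 + e • x') = 1 := by
    rw [map_add, map_one]
    have : (residue A).mapMatrix (e • x') = 0 := by
      ext i j
      change residue A (e * x' i j) = 0
      rw [map_mul, (residue_eq_zero_iff e).2 hem, zero_mul]
    rw [this, add_zero]
  have hVu : IsUnit (1 + e • x') := by
    rw [Matrix.isUnit_iff_isUnit_det]
    by_contra hcon
    have h1 : residue A (1 + e • x').det = 0 := (residue_eq_zero_iff _).2
      ((mem_maximalIdeal _).2 hcon)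
    rw [RingHom.map_det, hbar1, Matrix.det_one] at h1
    exact one_ne_zero h1
  let V : GL (Fin n) A := hVu.unit
  have hV : (V : Matrix (Fin n) (Fin n) A) = 1 + e • x' := rfl
  have hVη : RJ J n V = η (Multiplicative.ofAdd (x'.map (residue A))) := by
    apply Units.ext
    change (Ideal.Quotient.mk J).mapMatrix (1 + e • x') = 1 + eps J e he (x'.map (residue A))
    rw [map_add, map_one, eps_map]
  refine ⟨V * X, ?_, ?_⟩
  · rw [bar_mul, hX, mul_one]
    exact hbar1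
  · intro g
    have h1 : V * X * ρ₁ g * (V * X)⁻¹ = V * (X * ρ₁ g * X⁻¹) * V⁻¹ := by group
    rw [h1, map_mul, map_mul (RJ J n) V, map_inv, hVη, hβ g, hx g]
    have h2 := hconjP (ρ₁ g) (-(x'.map (residue A)))
    have h3 : η (Multiplicative.ofAdd (-(x'.map (residue A)))) =
        (η (Multiplicative.ofAdd (x'.map (residue A))))⁻¹ := by
      rw [← map_inv]
      rfl
    rw [h3] at h2
    have h4 : η (Multiplicative.ofAdd (x'.map (residue A))) * RJ J n (X * ρ₁ g * X⁻¹) *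
        (η (Multiplicative.ofAdd (x'.map (residue A))))⁻¹ =
        η (Multiplicative.ofAdd (x'.map (residue A))) * (RJ J n (X * ρ₁ g * X⁻¹) *
        (η (Multiplicative.ofAdd (x'.map (residue A))))⁻¹ * (RJ J n (X * ρ₁ g * X⁻¹))⁻¹) *
        RJ J n (X * ρ₁ g * X⁻¹) := by group
    rw [h4, h2, ← map_mul]
    congr 2
    change x'.map (residue A) - bar (ρ₁ g) * x'.map (residue A) * bar (ρ₁ g)⁻¹ =
      x'.map (residue A) + bar (ρ₁ g) * -(x'.map (residue A)) * bar (ρ₁ g)⁻¹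
    rw [mul_neg, neg_mul, sub_eq_add_neg]

theorem all_fix [IsNoetherianRing A] {G : Type} [Group G]
    [TopologicalSpace G] {H : Subgroup G} [hH : H.Normal]
    (hn : 0 < n) (Ur : Set G) (ρ₁ ρ₂ : G →* GL (Fin n) A)
    (ho₁ : ∀ k, IsOpen (((Rk A n k).comp ρ₁).ker : Set G))
    (ho₂ : ∀ k, IsOpen (((Rk A n k).comp ρ₂).ker : Set G))
    (hur₁ : ∀ τ : H, (τ : G) ∈ Ur → ρ₁ τ = 1) (hur₂ : ∀ τ : H, (τ : G) ∈ Ur → ρ₂ τ = 1)
    (hspan : Submodule.span A (Set.range fun g : H => (ρ₁ g : Matrix (Fin n) (Fin n) A)) = ⊤)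
    (hne : ¬ HasFix H Ur ((Matrix.GeneralLinearGroup.map (residue A)).comp ρ₁))
    (hcong : ∀ g : H, bar (ρ₂ g) = bar (ρ₁ g)) (k : ℕ) (J : Ideal A) :
    maximalIdeal A ^ k ≤ J → J ≤ maximalIdeal A →
    ∃ X : GL (Fin n) A, bar X = 1 ∧ ∀ g : H, RJ J n (ρ₂ g) = RJ J n (X * ρ₁ g * X⁻¹) := by
  induction J using IsNoetherian.induction with
  | hgt J ih =>
    intro hkJ hJm
    by_cases hJ : J = maximalIdeal A
    · refine ⟨1, ?_, ?_⟩
      · change (residue A).mapMatrix 1 = 1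
        rw [map_one]
      · intro g
        rw [one_mul, inv_one, mul_one, RJ_eq_iff]
        intro i j
        rw [hJ, ← residue_eq_zero_iff, map_sub, sub_eq_zero]
        exact congrFun (congrFun (hcong g) i) j
    · classical
      have hex : ∃ i, maximalIdeal A ^ i ≤ J := ⟨k, hkJ⟩
      have hi := Nat.find_spec hex
      have hi2 : 2 ≤ Nat.find hex := by
        by_contra hcon
        have h1 : Nat.find hex = 0 ∨ Nat.find hex = 1 := by omega
        rcases h1 with h1 | h1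
        · rw [h1, pow_zero, Ideal.one_eq_top] at hi
          exact (IsLocalRing.maximalIdeal.isMaximal A).ne_top (top_le_iff.1 (hi.trans hJm))
        · rw [h1, pow_one] at hi
          exact hJ (le_antisymm hJm hi)
      have hlt : ¬ maximalIdeal A ^ (Nat.find hex - 1) ≤ J := Nat.find_min hex (by omega)
      obtain ⟨e, hei, heJ⟩ := SetLike.not_le_iff_exists.1 hlt
      have hem : e ∈ maximalIdeal A := by
        have h1 : maximalIdeal A ^ (Nat.find hex - 1) ≤ maximalIdeal A ^ 1 :=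
          Ideal.pow_le_pow_right (by omega)
        rw [pow_one] at h1
        exact h1 hei
      have he : ∀ a ∈ maximalIdeal A, a * e ∈ J := by
        intro a ha
        apply hi
        have h1 := Ideal.mul_mem_mul ha hei
        rw [← pow_succ'] at h1
        rwa [Nat.sub_add_cancel (by omega)] at h1
      have hJlt : J ⊔ Ideal.span {e} > J := by
        refine lt_of_le_of_ne le_sup_left ?_
        intro h
        apply heJ
        rw [h]
        exact Ideal.mem_sup_right (Ideal.mem_span_singleton_self e)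
      obtain ⟨X, hX, hXg⟩ := ih _ hJlt (hkJ.trans le_sup_left)
        (sup_le hJm ((Ideal.span_singleton_le_iff_mem _).2 hem))
      refine step_fix hn Ur ρ₁ ρ₂ hur₁ hur₂ hspan hne J e he hem heJ hJm ?_ X hX hXg
      refine ⟨((((Rk A n k).comp ρ₁).ker ⊓ ((Rk A n k).comp ρ₂).ker).comap H.subtype), ?_, ?_⟩
      · have h1 := (ho₁ k).inter (ho₂ k)
        exact h1.preimage continuous_subtype_val
      · rintro g ⟨hg1, hg2⟩
        constructor
        · rw [← map_one (RJ J n)]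
          apply RJ_mono hkJ
          rw [map_one]
          exact hg1
        · rw [← map_one (RJ J n)]
          apply RJ_mono hkJ
          rw [map_one]
          exact hg2

/-- **Unique lifts.**  Two representations of `G` which agree modulo the maximal ideal on the normal
subgroup `H`, residually absolutely irreducible on `H`, are equal up to conjugation and a twist by a
character of `G / H` if `G` has no fixed vector on `H ^ 1 (H, ad)`. -/
theorem unique_fix [IsNoetherianRing A] {G : Type} [Group G]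
    [TopologicalSpace G] {H : Subgroup G} [hH : H.Normal]
    (hn : 0 < n) (Ur : Set G) (ρ₁ ρ₂ : G →* GL (Fin n) A)
    (ho₁ : ∀ k, IsOpen (((Rk A n k).comp ρ₁).ker : Set G))
    (ho₂ : ∀ k, IsOpen (((Rk A n k).comp ρ₂).ker : Set G))
    (hur₁ : ∀ τ : H, (τ : G) ∈ Ur → ρ₁ τ = 1) (hur₂ : ∀ τ : H, (τ : G) ∈ Ur → ρ₂ τ = 1)
    (hspan : Submodule.span (ResidueField A) (Set.range fun g : H => bar (ρ₁ g)) = ⊤)
    (hne : ¬ HasFix H Ur ((Matrix.GeneralLinearGroup.map (residue A)).comp ρ₁))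
    (hcong : ∀ g : H, bar (ρ₂ g) = bar (ρ₁ g)) :
    ∃ (X : GL (Fin n) A) (θ : G →* Aˣ), (∀ g : H, θ g = 1) ∧
      ∀ g, (ρ₂ g : Matrix (Fin n) (Fin n) A) =
        (θ g : A) • ((X * ρ₁ g * X⁻¹ : GL (Fin n) A) : Matrix (Fin n) (Fin n) A) := by
  classical
  have hspanA := span_of_bar (fun g : H => (ρ₁ g : Matrix (Fin n) (Fin n) A)) hspan
  obtain ⟨X, hX, hXg⟩ := exact_of_approx (fun g : H => ρ₁ g) (fun g : H => ρ₂ g) (by
    intro k
    obtain ⟨X, hX, hXg⟩ := all_fix hn Ur ρ₁ ρ₂ ho₁ ho₂ hur₁ hur₂ hspanA hne hcong (k + 1)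
      (maximalIdeal A ^ (k + 1)) le_rfl (by
        conv_rhs => rw [← pow_one (maximalIdeal A)]
        exact Ideal.pow_le_pow_right (by omega))
    exact ⟨X, hX, fun g => RJ_mono (Ideal.pow_le_pow_right (by omega)) (hXg g)⟩)
  -- the quotient is a scalar
  obtain ⟨Z, hZd⟩ : ∃ Z : G → GL (Fin n) A, ∀ g, Z g = (X * ρ₁ g * X⁻¹)⁻¹ * ρ₂ g :=
    ⟨_, fun _ => rfl⟩
  have hZ : ∀ g, ρ₂ g = (X * ρ₁ g * X⁻¹) * Z g := fun g => by rw [hZd]; group
  have hZH : ∀ g : H, Z g = 1 := by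
    intro g
    rw [hZd, hXg g, inv_mul_cancel]
  have hZc : ∀ (g : G) (h : H), Z g * (X * ρ₁ h * X⁻¹) = (X * ρ₁ h * X⁻¹) * Z g := by
    intro g h
    have h1 : ρ₂ (g * h * g⁻¹) = X * ρ₁ (g * h * g⁻¹) * X⁻¹ := hXg ⟨g * h * g⁻¹, hH.conj_mem h h.2 g⟩
    have h2 : ρ₂ h = X * ρ₁ h * X⁻¹ := hXg h
    rw [map_mul, map_mul, map_inv, hZ g, h2, map_mul, map_mul, map_inv] at h1
    have h3 : (X * ρ₁ g * X⁻¹) * (Z g * (X * ρ₁ h * X⁻¹) * (Z g)⁻¹) * (X * ρ₁ g * X⁻¹)⁻¹ =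
        (X * ρ₁ g * X⁻¹) * (X * ρ₁ h * X⁻¹) * (X * ρ₁ g * X⁻¹)⁻¹ := by
      calc _ = X * ρ₁ g * X⁻¹ * Z g * (X * ρ₁ h * X⁻¹) * (X * ρ₁ g * X⁻¹ * Z g)⁻¹ := by group
        _ = X * (ρ₁ g * ρ₁ h * (ρ₁ g)⁻¹) * X⁻¹ := h1
        _ = _ := by group
    have h4 := mul_right_cancel h3
    have h5 := mul_left_cancel h4
    exact mul_inv_eq_iff_eq_mul.1 h5
  have hcomm : ∀ (g : G) (M : Matrix (Fin n) (Fin n) A),
      (Z g : Matrix (Fin n) (Fin n) A) * M = M * Z g := by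
    intro g
    let D : Matrix (Fin n) (Fin n) A →ₗ[A] Matrix (Fin n) (Fin n) A :=
      (LinearMap.mulLeft A (Z g : Matrix (Fin n) (Fin n) A) -
        LinearMap.mulRight A (Z g : Matrix (Fin n) (Fin n) A)) ∘ₗ
      LinearMap.mulLeft A (X : Matrix (Fin n) (Fin n) A) ∘ₗ
      LinearMap.mulRight A ((X⁻¹ : GL (Fin n) A) : Matrix (Fin n) (Fin n) A)
    have hD : ∀ M, D M = (Z g : Matrix (Fin n) (Fin n) A) *
        ((X : Matrix (Fin n) (Fin n) A) * (M * ((X⁻¹ : GL (Fin n) A) :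
          Matrix (Fin n) (Fin n) A))) -
        ((X : Matrix (Fin n) (Fin n) A) * (M * ((X⁻¹ : GL (Fin n) A) :
          Matrix (Fin n) (Fin n) A))) * (Z g : Matrix (Fin n) (Fin n) A) := fun M => rfl
    have hle : Submodule.span A (Set.range fun h : H => (ρ₁ h : Matrix (Fin n) (Fin n) A)) ≤
        LinearMap.ker D := by
      rw [Submodule.span_le]
      rintro _ ⟨h, rfl⟩
      change D (ρ₁ h : Matrix (Fin n) (Fin n) A) = 0
      rw [hD, sub_eq_zero]
      have h1 := congrArg Units.val (hZc g h)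
      rw [Units.val_mul (Z g), Units.val_mul (X * ρ₁ h * X⁻¹) (Z g), Units.val_mul (X * ρ₁ h),
        Units.val_mul X (ρ₁ h), mul_assoc (X : Matrix (Fin n) (Fin n) A)] at h1
      exact h1
    rw [hspanA] at hle
    intro M
    have h1 : D (((X⁻¹ : GL (Fin n) A) : Matrix (Fin n) (Fin n) A) * M *
      (X : Matrix (Fin n) (Fin n) A)) = 0 := hle trivial
    rw [hD, sub_eq_zero] at h1
    have h2 : (X : Matrix (Fin n) (Fin n) A) * (((X⁻¹ : GL (Fin n) A) :
        Matrix (Fin n) (Fin n) A) * M * (X : Matrix (Fin n) (Fin n) A) *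
        ((X⁻¹ : GL (Fin n) A) : Matrix (Fin n) (Fin n) A)) = M := by
      rw [mul_assoc (((X⁻¹ : GL (Fin n) A) : Matrix (Fin n) (Fin n) A) * M), Units.mul_inv, mul_one,
        ← mul_assoc, Units.mul_inv, one_mul]
    rw [h2] at h1
    exact h1
  have hsc : ∀ g, (Z g : Matrix (Fin n) (Fin n) A) =
      (Z g : Matrix (Fin n) (Fin n) A) ⟨0, hn⟩ ⟨0, hn⟩ • (1 : Matrix (Fin n) (Fin n) A) := by
    intro g
    have h1 := scalar_of_comm (⊥ : Ideal A) hn (Z g : Matrix (Fin n) (Fin n) A) (by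
      intro M i j
      rw [hcomm g M, sub_self]
      exact Ideal.zero_mem _)
    ext i j
    have h2 := h1 i j
    rw [Submodule.mem_bot, Matrix.sub_apply, sub_eq_zero] at h2
    exact h2
  have hZmul : ∀ g h, Z (g * h) = Z g * Z h := by
    intro g h
    have h1 : (X * ρ₁ (g * h) * X⁻¹) * Z (g * h) =
        (X * ρ₁ g * X⁻¹) * Z g * ((X * ρ₁ h * X⁻¹) * Z h) := by
      rw [← hZ, ← hZ, ← hZ, map_mul]
    have h2 : Z g * (X * ρ₁ h * X⁻¹) = (X * ρ₁ h * X⁻¹) * Z g := Units.ext (by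
      rw [Units.val_mul (Z g), Units.val_mul (X * ρ₁ h * X⁻¹) (Z g), hcomm g])
    have h3 : (X * ρ₁ g * X⁻¹) * Z g * ((X * ρ₁ h * X⁻¹) * Z h) =
        (X * ρ₁ (g * h) * X⁻¹) * (Z g * Z h) := by
      calc _ = (X * ρ₁ g * X⁻¹) * (Z g * (X * ρ₁ h * X⁻¹)) * Z h := by group
        _ = (X * ρ₁ g * X⁻¹) * ((X * ρ₁ h * X⁻¹) * Z g) * Z h := by rw [h2]
        _ = _ := by rw [map_mul]; group
    rw [h3] at h1
    exact mul_left_cancel h1
  have hZi : ∀ g, (Z g)⁻¹ = Z g⁻¹ := by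
    intro g
    rw [inv_eq_iff_mul_eq_one, ← hZmul, mul_inv_cancel]
    exact hZH 1
  have hentry : ∀ g h, (Z (g * h) : Matrix (Fin n) (Fin n) A) ⟨0, hn⟩ ⟨0, hn⟩ =
      (Z g : Matrix (Fin n) (Fin n) A) ⟨0, hn⟩ ⟨0, hn⟩ *
        (Z h : Matrix (Fin n) (Fin n) A) ⟨0, hn⟩ ⟨0, hn⟩ := by
    intro g h
    rw [hZmul, Units.val_mul]
    conv_lhs => rw [hsc g]
    rw [smul_mul_assoc, one_mul, Matrix.smul_apply, smul_eq_mul]
  have hone : (Z 1 : Matrix (Fin n) (Fin n) A) ⟨0, hn⟩ ⟨0, hn⟩ = 1 := by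
    have h1 : Z 1 = 1 := hZH 1
    rw [h1, Units.val_one, Matrix.one_apply_eq]
  let θ : G →* Aˣ :=
    { toFun := fun g =>
        { val := (Z g : Matrix (Fin n) (Fin n) A) ⟨0, hn⟩ ⟨0, hn⟩
          inv := (Z g⁻¹ : Matrix (Fin n) (Fin n) A) ⟨0, hn⟩ ⟨0, hn⟩
          val_inv := by rw [← hentry, mul_inv_cancel, hone]
          inv_val := by rw [← hentry, inv_mul_cancel, hone] }
      map_one' := Units.ext hone
      map_mul' := fun g h => Units.ext (hentry g h) }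
  refine ⟨X, θ, fun g => Units.ext ?_, fun g => ?_⟩
  · change (Z g : Matrix (Fin n) (Fin n) A) ⟨0, hn⟩ ⟨0, hn⟩ = 1
    rw [hZH g, Units.val_one, Matrix.one_apply_eq]
  · conv_lhs => rw [hZ g, Units.val_mul, hsc g]
    rw [mul_smul_comm, mul_one]
    rfl

end step

end Pool.Agent.U419.UG
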